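import Pool.Agent.Lib_MP_752436_fm.Near

/-!
The area formula with multiplicities: the integral of the curvature density counts the positive
normal vectors.
-/

open MeasureTheory Metric Set
open scoped ContDiff ENNReal NNReal Topology Function

namespace Pool.Agent.Lib_MP_752436_fm

open Pool.Agent.Lib_MP_752436_gt Pool.Agent.Lib_MP_752436_mv Pool.Agent.Lib_MP_752436_dm

theorem exists_inj_partition {s : Set (EuclideanSpace ℝ (Fin 4))}
    {f : EuclideanSpace ℝ (Fin 4) → EuclideanSpace ℝ (Fin 4)}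
    {f' : EuclideanSpace ℝ (Fin 4) → EuclideanSpace ℝ (Fin 4) →L[ℝ] EuclideanSpace ℝ (Fin 4)}
    (hf' : ∀ z ∈ s, HasFDerivWithinAt f (f' z) s z) (hdet : ∀ z ∈ s, (f' z).det ≠ 0)
    (hne : s.Nonempty) :
    ∃ t : ℕ → Set (EuclideanSpace ℝ (Fin 4)), Pairwise (Disjoint on t) ∧
      (∀ n, MeasurableSet (t n)) ∧ s ⊆ ⋃ n, t n ∧ ∀ n, InjOn f (s ∩ t n) := by
  classical
  set r : (EuclideanSpace ℝ (Fin 4) →L[ℝ] EuclideanSpace ℝ (Fin 4)) → ℝ≥0 := fun A =>
    if h : A.det ≠ 0 then ‖((A.toContinuousLinearEquivOfDetNeZero h).symm :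
      EuclideanSpace ℝ (Fin 4) →L[ℝ] EuclideanSpace ℝ (Fin 4))‖₊⁻¹ / 2 else 1 with hr
  have hpos : ∀ (A : EuclideanSpace ℝ (Fin 4) →L[ℝ] EuclideanSpace ℝ (Fin 4)) (h : A.det ≠ 0),
      0 < ‖((A.toContinuousLinearEquivOfDetNeZero h).symm :
        EuclideanSpace ℝ (Fin 4) →L[ℝ] EuclideanSpace ℝ (Fin 4))‖₊⁻¹ := fun A h =>
    inv_pos.2 ((A.toContinuousLinearEquivOfDetNeZero h).nnnorm_symm_pos)
  have rpos : ∀ A, r A ≠ 0 := by
    intro A
    simp only [hr]
    split_ifs with h
    · exact (half_pos (hpos A h)).ne'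
    · exact one_ne_zero
  obtain ⟨t, A, hd, hm, hs, happ, hA⟩ :=
    exists_partition_approximatesLinearOn_of_hasFDerivWithinAt f s f' hf' r rpos
  refine ⟨t, hd, hm, hs, fun n => ?_⟩
  obtain ⟨y, hy, hAy⟩ := hA hne n
  have hdet' : (A n).det ≠ 0 := by rw [hAy]; exact hdet y hy
  have happ' := happ n
  have hrn : r (A n) = ‖(((A n).toContinuousLinearEquivOfDetNeZero hdet').symm :
      EuclideanSpace ℝ (Fin 4) →L[ℝ] EuclideanSpace ℝ (Fin 4))‖₊⁻¹ / 2 := by
    simp only [hr]
    rw [dif_pos hdet']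
  rw [hrn] at happ'
  refine ApproximatesLinearOn.injOn (f' := (A n).toContinuousLinearEquivOfDetNeZero hdet')
    (c := ‖(((A n).toContinuousLinearEquivOfDetNeZero hdet').symm :
      EuclideanSpace ℝ (Fin 4) →L[ℝ] EuclideanSpace ℝ (Fin 4))‖₊⁻¹ / 2) ?_
    (Or.inr (half_lt_self (hpos _ hdet')))
  rw [ContinuousLinearMap.coe_toContinuousLinearEquivOfDetNeZero]
  exact happ'

/-- The number of points of a countable disjoint union. -/
theorem encard_iUnion {α : Type*} [MeasurableSpace α] [MeasurableSingletonClass α]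
    {A : ℕ → Set α} (hc : ∀ n, (A n).Countable) (hd : Pairwise (Disjoint on A)) :
    (((⋃ n, A n).encard : ℕ∞) : ℝ≥0∞) = ∑' n, (((A n).encard : ℕ∞) : ℝ≥0∞) := by
  have h1 : ∀ n, MeasurableSet (A n) := fun n => (hc n).measurableSet
  rw [← Measure.count_apply (MeasurableSet.iUnion h1), measure_iUnion hd h1]
  exact tsum_congr fun n => Measure.count_apply (h1 n)

/-- The area formula with multiplicities. -/
theorem lintegral_det_eq_count {s : Set (EuclideanSpace ℝ (Fin 4))} (hs : MeasurableSet s)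
    {f : EuclideanSpace ℝ (Fin 4) → EuclideanSpace ℝ (Fin 4)}
    {f' : EuclideanSpace ℝ (Fin 4) → EuclideanSpace ℝ (Fin 4) →L[ℝ] EuclideanSpace ℝ (Fin 4)}
    (hf' : ∀ z ∈ s, HasFDerivWithinAt f (f' z) s z) (hdet : ∀ z ∈ s, (f' z).det ≠ 0) :
    (∀ v, (s ∩ f ⁻¹' {v}).Countable) ∧
      Measurable (fun v => (((s ∩ f ⁻¹' {v}).encard : ℕ∞) : ℝ≥0∞)) ∧
      ∫⁻ z in s, ENNReal.ofReal |(f' z).det| =
        ∫⁻ v, (((s ∩ f ⁻¹' {v}).encard : ℕ∞) : ℝ≥0∞) := by
  classical
  rcases s.eq_empty_or_nonempty with rfl | hne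
  · simp
  obtain ⟨t, hd, hm, hst, hinj⟩ := exists_inj_partition hf' hdet hne
  have hsm : ∀ n, MeasurableSet (s ∩ t n) := fun n => hs.inter (hm n)
  have hder : ∀ n, ∀ z ∈ s ∩ t n, HasFDerivWithinAt f (f' z) (s ∩ t n) z := fun n z hz =>
    (hf' z hz.1).mono inter_subset_left
  have him : ∀ n, MeasurableSet (f '' (s ∩ t n)) := fun n =>
    measurable_image_of_fderivWithin (hsm n) (hder n) (hinj n)
  have hsub : ∀ n v, ((s ∩ t n) ∩ f ⁻¹' {v}).Subsingleton := by
    intro n v z hz w hw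
    have e1 : f z = v := hz.2
    have e2 : f w = v := hw.2
    exact hinj n hz.1 hw.1 (e1.trans e2.symm)
  have hcov : ∀ v, s ∩ f ⁻¹' {v} = ⋃ n, ((s ∩ t n) ∩ f ⁻¹' {v}) := by
    intro v
    ext z
    simp only [mem_inter_iff, mem_iUnion]
    constructor
    · rintro ⟨h1, h2⟩
      obtain ⟨n, hn⟩ := mem_iUnion.1 (hst h1)
      exact ⟨n, ⟨h1, hn⟩, h2⟩
    · rintro ⟨n, ⟨h1, -⟩, h2⟩
      exact ⟨h1, h2⟩
  have hcount : ∀ v, (s ∩ f ⁻¹' {v}).Countable := by
    intro v
    rw [hcov v]
    exact countable_iUnion fun n => (hsub n v).finite.countable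
  have hpd : ∀ v, Pairwise (Disjoint on fun n => ((s ∩ t n) ∩ f ⁻¹' {v})) := by
    intro v i j hij
    exact (hd hij).mono (fun z hz => hz.1.2) (fun z hz => hz.1.2)
  have hone : ∀ n v, ((((s ∩ t n) ∩ f ⁻¹' {v}).encard : ℕ∞) : ℝ≥0∞) =
      (f '' (s ∩ t n)).indicator 1 v := by
    intro n v
    by_cases hv : v ∈ f '' (s ∩ t n)
    · rw [indicator_of_mem hv]
      obtain ⟨z, hz, rfl⟩ := hv
      have : ((s ∩ t n) ∩ f ⁻¹' {f z}) = {z} :=
        (hsub n (f z)).eq_singleton_of_mem ⟨hz, rfl⟩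
      rw [this, encard_singleton]
      simp
    · rw [indicator_of_notMem hv]
      have : ((s ∩ t n) ∩ f ⁻¹' {v}) = ∅ := by
        rw [eq_empty_iff_forall_notMem]
        rintro z ⟨hz, h2⟩
        exact hv ⟨z, hz, h2⟩
      rw [this, encard_empty]
      simp
  have hform : ∀ v, (((s ∩ f ⁻¹' {v}).encard : ℕ∞) : ℝ≥0∞) =
      ∑' n, (f '' (s ∩ t n)).indicator 1 v := by
    intro v
    rw [hcov v, encard_iUnion (fun n => (hsub n v).finite.countable) (hpd v)]
    exact tsum_congr fun n => hone n v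
  have hmi : ∀ n, Measurable ((f '' (s ∩ t n)).indicator (1 : EuclideanSpace ℝ (Fin 4) → ℝ≥0∞)) :=
    fun n => measurable_one.indicator (him n)
  refine ⟨hcount, ?_, ?_⟩
  · simp only [hform]
    exact Measurable.ennreal_tsum hmi
  · have hsu : s = ⋃ n, (s ∩ t n) := by
      rw [← inter_iUnion, inter_eq_left.2 hst]
    calc ∫⁻ z in s, ENNReal.ofReal |(f' z).det|
        = ∫⁻ z in ⋃ n, (s ∩ t n), ENNReal.ofReal |(f' z).det| := by rw [← hsu]
      _ = ∑' n, ∫⁻ z in s ∩ t n, ENNReal.ofReal |(f' z).det| :=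
          lintegral_iUnion hsm (fun i j hij => (hd hij).mono inter_subset_right
            inter_subset_right) _
      _ = ∑' n, ∫⁻ v, (f '' (s ∩ t n)).indicator 1 v := by
          refine tsum_congr fun n => ?_
          rw [lintegral_indicator_one (him n)]
          exact lintegral_abs_det_fderiv_eq_addHaar_image volume (hsm n) (hder n) (hinj n)
      _ = ∫⁻ v, ∑' n, (f '' (s ∩ t n)).indicator 1 v :=
          (lintegral_tsum fun n => (hmi n).aemeasurable).symm
      _ = _ := lintegral_congr fun v => (hform v).symm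

/-- The points of `O` at which `v ∈ T` is a positive normal vector. -/
def posPts (F : EuclideanSpace ℝ (Fin 2) → EuclideanSpace ℝ (Fin 4))
    (O : Set (EuclideanSpace ℝ (Fin 2))) (T : Set (EuclideanSpace ℝ (Fin 4)))
    (v : EuclideanSpace ℝ (Fin 4)) : Set (EuclideanSpace ℝ (Fin 2)) :=
  {x | x ∈ O ∧ PosAt F x v ∧ v ∈ T}

/-- The counting formula on a set `O`. -/
def CountFormula (F : EuclideanSpace ℝ (Fin 2) → EuclideanSpace ℝ (Fin 4))
    (O : Set (EuclideanSpace ℝ (Fin 2))) (T : Set (EuclideanSpace ℝ (Fin 4))) : Prop :=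
  (∀ v, (posPts F O T v).Countable) ∧
    Measurable (fun v => (((posPts F O T v).encard : ℕ∞) : ℝ≥0∞)) ∧
    ∫⁻ x in O, dens F T x = ∫⁻ v, (((posPts F O T v).encard : ℕ∞) : ℝ≥0∞)

section

variable {F : EuclideanSpace ℝ (Fin 2) → EuclideanSpace ℝ (Fin 4)}
  {O : Set (EuclideanSpace ℝ (Fin 2))} {T : Set (EuclideanSpace ℝ (Fin 4))}

theorem countFormula_piece (hF : ContDiff ℝ ∞ F) (hO : MeasurableSet O) (hT : MeasurableSet T)
    (hm : ∀ x ∈ O, minor F x ≠ 0) (hg : ∀ x ∈ O, 0 < gdet F x) : CountFormula F O T := by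
  have hps := measurableSet_ps hF hO hT
  obtain ⟨h1, h2, h3⟩ := lintegral_det_eq_count hps (f := phi F) (f' := fderiv ℝ (phi F))
    (fun z hz => ((nrm_jac hF z (hm _ hz.1)).1.hasFDerivAt).hasFDerivWithinAt) (fun z hz h0 => by
      have h4 := (nrm_jac hF z (hm _ hz.1)).2
      have h5 : |(fderiv ℝ (phi F) z).det| = |gq F !₂[z 0, z 1] (phi F z)|
          / |minor F !₂[z 0, z 1]| := h4
      rw [h0, abs_zero] at h5
      have h6 : 0 < |gq F !₂[z 0, z 1] (phi F z)| / |minor F !₂[z 0, z 1]| :=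
        div_pos (abs_pos.2 hz.2.1.2.2.ne') (abs_pos.2 (hm _ hz.1))
      exact h6.ne h5)
  have himg : ∀ v, posPts F O T v =
      (fun z : EuclideanSpace ℝ (Fin 4) => (!₂[z 0, z 1] : EuclideanSpace ℝ (Fin 2))) ''
        (ps F O T ∩ phi F ⁻¹' {v}) := by
    intro v
    ext x
    constructor
    · rintro ⟨hx, ⟨hv, hq⟩, hvT⟩
      have hvn : nrm F x !₂[v 2, v 3] = v := (eq_nrm F x (hm x hx) v hv).symm
      have hz1 : (!₂[(!₂[x 0, x 1, v 2, v 3] : EuclideanSpace ℝ (Fin 4)) 0,
          (!₂[x 0, x 1, v 2, v 3] : EuclideanSpace ℝ (Fin 4)) 1] : EuclideanSpace ℝ (Fin 2)) = x := by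
        ext i; fin_cases i <;> rfl
      have hz2 : (!₂[(!₂[x 0, x 1, v 2, v 3] : EuclideanSpace ℝ (Fin 4)) 2,
          (!₂[x 0, x 1, v 2, v 3] : EuclideanSpace ℝ (Fin 4)) 3] : EuclideanSpace ℝ (Fin 2))
          = !₂[v 2, v 3] := by
        ext i; fin_cases i <;> rfl
      have hphi : phi F !₂[x 0, x 1, v 2, v 3] = v := by
        unfold phi
        rw [hz1, hz2, hvn]
      refine ⟨!₂[x 0, x 1, v 2, v 3], ⟨⟨?_, ?_, ?_⟩, hphi⟩, hz1⟩
      · rw [hz1]; exact hx
      · rw [hphi, hz1]; exact hq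
      · rw [hphi]; exact hvT
    · rintro ⟨z, ⟨⟨hz1, hz2, hz3⟩, hzv⟩, rfl⟩
      have hzv' : phi F z = v := hzv
      refine ⟨hz1, ⟨?_, ?_⟩, ?_⟩
      · rw [← hzv']
        exact nrm_perp F _ _ (hm _ hz1)
      · rw [← hzv']; exact hz2
      · rw [← hzv']; exact hz3
  have hinj : ∀ v, InjOn
      (fun z : EuclideanSpace ℝ (Fin 4) => (!₂[z 0, z 1] : EuclideanSpace ℝ (Fin 2)))
        (ps F O T ∩ phi F ⁻¹' {v}) := by
    intro v z hz w hw hzw
    have hz' : phi F z = v := hz.2
    have hw' : phi F w = v := hw.2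
    have hzw2 : phi F z = phi F w := hz'.trans hw'.symm
    have hzw1 : (!₂[z 0, z 1] : EuclideanSpace ℝ (Fin 2)) = !₂[w 0, w 1] := hzw
    have e0 := congrArg (fun y : EuclideanSpace ℝ (Fin 2) => y 0) hzw1
    have e1 := congrArg (fun y : EuclideanSpace ℝ (Fin 2) => y 1) hzw1
    have e2 := congrArg (fun y : EuclideanSpace ℝ (Fin 4) => y 2) hzw2
    have e3 := congrArg (fun y : EuclideanSpace ℝ (Fin 4) => y 3) hzw2
    simp [phi, nrm] at e0 e1 e2 e3
    ext i
    fin_cases i
    · exact e0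
    · exact e1
    · exact e2
    · exact e3
  have hcard : ∀ v, (posPts F O T v).encard = (ps F O T ∩ phi F ⁻¹' {v}).encard := by
    intro v
    rw [himg v, (hinj v).encard_image]
  refine ⟨fun v => ?_, ?_, ?_⟩
  · rw [himg v]
    exact (h1 v).image _
  · simp only [hcard]
    exact h2
  · rw [area_piece hF hO hT hm hg, h3]
    exact lintegral_congr fun v => by rw [hcard v]

theorem countFormula_perm (hF : ContDiff ℝ ∞ F) (e : Equiv.Perm (Fin 4)) (hO : MeasurableSet O)
    (hT : MeasurableSet T) (hm : O ⊆ permPiece F e) (hg : ∀ x ∈ O, 0 < gdet F x) :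
    CountFormula F O T := by
  set R := LinearIsometryEquiv.piLpCongrLeft 2 ℝ ℝ e with hR
  have hT' : MeasurableSet (R.symm ⁻¹' T) := R.symm.continuous.measurable hT
  have hTT : R ⁻¹' (R.symm ⁻¹' T) = T := by
    ext v
    simp
  obtain ⟨h1, h2, h3⟩ := countFormula_piece (contDiff_comp_isometry R hF) hO hT'
    (fun x hx => hm hx) (fun x hx => by rw [gdet_comp _ hF]; exact hg x hx)
  have hpts : ∀ v, posPts (fun y => R (F y)) O (R.symm ⁻¹' T) (R v) = posPts F O T v := by
    intro v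
    ext x
    simp only [posPts, mem_ofPred_eq, posAt_rot R hF, mem_preimage, R.symm_apply_apply]
  refine ⟨fun v => ?_, ?_, ?_⟩
  · rw [← hpts v]
    exact h1 (R v)
  · have h4 := h2.comp R.continuous.measurable
    simp only [Function.comp_def, hpts] at h4
    exact h4
  · have h5 : ∫⁻ x in O, dens F T x = ∫⁻ x in O, dens (fun y => R (F y)) (R.symm ⁻¹' T) x := by
      refine lintegral_congr fun x => ?_
      rw [dens_rot R hF, hTT]
    rw [h5, h3, ← R.measurePreserving.lintegral_comp h2]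
    exact lintegral_congr fun v => by rw [hpts v]

theorem countFormula (hF : ContDiff ℝ ∞ F) (hO : MeasurableSet O) (hT : MeasurableSet T)
    (hg : ∀ x ∈ O, 0 < gdet F x) : CountFormula F O T := by
  classical
  obtain ⟨en⟩ := Fintype.truncEquivFin (Equiv.Perm (Fin 4))
  set f : ℕ → Set (EuclideanSpace ℝ (Fin 2)) := fun n =>
    if h : n < Fintype.card (Equiv.Perm (Fin 4)) then O ∩ permPiece F (en.symm ⟨n, h⟩) else ∅
    with hf
  have hfm : ∀ n, MeasurableSet (f n) := by
    intro n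
    simp only [hf]
    split_ifs with h
    · exact hO.inter (measurableSet_permPiece hF _)
    · exact MeasurableSet.empty
  have hcover : O = ⋃ n, disjointed f n := by
    rw [iUnion_disjointed]
    apply Subset.antisymm
    · intro x hx
      obtain ⟨e, he⟩ := exists_perm_minor hF (hg x hx)
      rw [mem_iUnion]
      refine ⟨(en e).1, ?_⟩
      simp only [hf]
      rw [dif_pos (en e).2]
      refine ⟨hx, ?_⟩
      have : en.symm ⟨(en e).1, (en e).2⟩ = e := by simp
      rw [this]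
      exact he
    · intro x hx
      rw [mem_iUnion] at hx
      obtain ⟨n, hn⟩ := hx
      simp only [hf] at hn
      split_ifs at hn with h
      · exact hn.1
      · exact absurd hn (notMem_empty x)
  have hdm : ∀ n, MeasurableSet (disjointed f n) := fun n => MeasurableSet.disjointed hfm n
  have hpiece : ∀ n, CountFormula F (disjointed f n) T := by
    intro n
    have hsub : disjointed f n ⊆ f n := disjointed_subset f n
    by_cases h : n < Fintype.card (Equiv.Perm (Fin 4))
    · have hfn : f n = O ∩ permPiece F (en.symm ⟨n, h⟩) := by simp only [hf]; rw [dif_pos h]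
      rw [hfn] at hsub
      exact countFormula_perm hF (en.symm ⟨n, h⟩) (hdm n) hT (fun x hx => (hsub hx).2)
        (fun x hx => hg x (hsub hx).1)
    · have hfn : f n = ∅ := by simp only [hf]; rw [dif_neg h]
      rw [hfn] at hsub
      have h0 : disjointed f n = ∅ := subset_empty_iff.1 hsub
      have h2 : ∀ v, posPts F ∅ T v = ∅ := by
        intro v
        ext x
        simp [posPts]
      rw [h0]
      refine ⟨fun v => ?_, ?_, ?_⟩
      · rw [h2]; exact countable_empty
      · simp [h2]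
      · simp [h2]
  have hpts : ∀ v, posPts F O T v = ⋃ n, posPts F (disjointed f n) T v := by
    intro v
    ext x
    simp only [posPts, mem_ofPred_eq, mem_iUnion]
    constructor
    · rintro ⟨h1, h2⟩
      rw [hcover, mem_iUnion] at h1
      obtain ⟨n, hn⟩ := h1
      exact ⟨n, hn, h2⟩
    · rintro ⟨n, h1, h2⟩
      refine ⟨?_, h2⟩
      rw [hcover, mem_iUnion]
      exact ⟨n, h1⟩
  have hpd : ∀ v, Pairwise (Disjoint on fun n => posPts F (disjointed f n) T v) := by
    intro v i j hij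
    exact (disjoint_disjointed f hij).mono (fun x hx => hx.1) (fun x hx => hx.1)
  have hsum : ∀ v, (((posPts F O T v).encard : ℕ∞) : ℝ≥0∞) =
      ∑' n, (((posPts F (disjointed f n) T v).encard : ℕ∞) : ℝ≥0∞) := by
    intro v
    rw [hpts v, encard_iUnion (fun n => (hpiece n).1 v) (hpd v)]
  refine ⟨fun v => ?_, ?_, ?_⟩
  · rw [hpts v]
    exact countable_iUnion fun n => (hpiece n).1 v
  · simp only [hsum]
    exact Measurable.ennreal_tsum fun n => (hpiece n).2.1
  · calc ∫⁻ x in O, dens F T x = ∫⁻ x in ⋃ n, disjointed f n, dens F T x := by rw [← hcover]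
      _ = ∑' n, ∫⁻ x in disjointed f n, dens F T x :=
          lintegral_iUnion hdm (disjoint_disjointed f) _
      _ = ∑' n, ∫⁻ v, (((posPts F (disjointed f n) T v).encard : ℕ∞) : ℝ≥0∞) :=
          tsum_congr fun n => (hpiece n).2.2
      _ = ∫⁻ v, ∑' n, (((posPts F (disjointed f n) T v).encard : ℕ∞) : ℝ≥0∞) :=
          (lintegral_tsum fun n => ((hpiece n).2.1).aemeasurable).symm
      _ = _ := lintegral_congr fun v => (hsum v).symm

end

/-- **Milnor's formula for slice discs**: the curvature is the integral of the number of interior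
local minima of the linear functions. -/
theorem kap_eq_count {F : EuclideanSpace ℝ (Fin 2) → EuclideanSpace ℝ (Fin 4)}
    (hF : IsSliceDisc F) :
    kap F = ∫⁻ v in ball 0 1 ∩ {v | 0 < v 3}, (((localMinima F v).encard : ℕ∞) : ℝ≥0∞) := by
  have hs := hF.smooth
  set D : Set (EuclideanSpace ℝ (Fin 2)) := closedBall 0 1 with hD
  have hDm : MeasurableSet D := measurableSet_closedBall
  have hg : ∀ x ∈ D, 0 < gdet F x := fun x hx => gdet_pos (hF.immersion x hx)
  obtain ⟨-, hmeas, hform⟩ := countFormula hs hDm measurableSet_upper hg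
  have hHm : MeasurableSet (ball (0 : EuclideanSpace ℝ (Fin 4)) 1 ∩ {v | 0 < v 3}) :=
    isOpen_ball.measurableSet.inter measurableSet_upper
  have h1 : kap F = ∫⁻ v in ball 0 1 ∩ {v | 0 < v 3}, (((posPts F D upper v).encard : ℕ∞) : ℝ≥0∞) := by
    unfold kap
    rw [hform, ← lintegral_indicator hHm]
    refine lintegral_congr fun v => ?_
    by_cases hv : v ∈ ball (0 : EuclideanSpace ℝ (Fin 4)) 1 ∩ {v | 0 < v 3}
    · rw [indicator_of_mem hv]
    · rw [indicator_of_notMem hv]
      have h2 : posPts F D upper v = ∅ := by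
        rw [eq_empty_iff_forall_notMem]
        rintro x ⟨-, ⟨-, h3, -⟩, h4⟩
        exact hv ⟨by simpa using h3, h4⟩
      rw [h2, encard_empty]
      simp
  rw [h1]
  -- almost every direction
  set E : Set (EuclideanSpace ℝ (Fin 4)) := degSet F D ∪
    (badSet F (sphere (0 : EuclideanSpace ℝ (Fin 2)) 1) ∩ ball 0 1) with hE
  have hE0 : volume E = 0 := by
    rw [hE]
    refine measure_union_null (volume_degSet hs hg) ?_
    have h1 := badSet_le hs (O := sphere (0 : EuclideanSpace ℝ (Fin 2)) 1)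
      isClosed_sphere.measurableSet (fun x hx => hg x (sphere_subset_closedBall hx))
    have h2 : volume (sphere (0 : EuclideanSpace ℝ (Fin 2)) 1) = 0 :=
      Measure.addHaar_sphere _ _ _
    rw [setLIntegral_measure_zero _ _ h2] at h1
    exact le_antisymm h1 zero_le
  have hae : ∀ᵐ v : EuclideanSpace ℝ (Fin 4), v ∉ E := measure_eq_zero_iff_ae_notMem.1 hE0
  refine setLIntegral_congr_fun_ae hHm ?_
  filter_upwards [hae] with v hvE hvH
  have h2 : posPts F D upper v = localMinima F v := by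
    ext x
    constructor
    · rintro ⟨hx, hpos, -⟩
      have hpd := posDef_of_coeff hs hpos.2.2.1 hpos.2.2.2
      have hbad : v ∈ badSet F {x} := by
        rw [mem_badSet_singleton]
        refine ⟨hpos.1, fun u => ?_⟩
        by_cases hu : u = 0
        · rw [hu]; simp
        · exact (hpd u hu).le
      refine ⟨?_, localMin_of_bad hs hbad hpd⟩
      rcases ball_or_sphere hx with h | h
      · exact h
      · exfalso
        apply hvE
        right
        obtain ⟨y, hy, h1, h2⟩ := hbad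
        rw [mem_singleton_iff] at hy
        subst hy
        exact ⟨⟨y, h, h1, h2⟩, hvH.1⟩
    · rintro ⟨hx, hmin⟩
      have hxD : x ∈ D := ball_subset_closedBall hx
      have hbad := bad_of_localMin hs hmin
      have hpd := pos_def_of_psd hs (O := D) hxD hbad (fun h => hvE (Or.inl h))
      refine ⟨hxD, ⟨(mem_badSet_singleton.1 hbad).1, by simpa using hvH.1,
        posDef_coeff hs hpd⟩, hvH.2⟩
  rw [h2]

end Pool.Agent.Lib_MP_752436_fm
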