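import Pool.Agent.Lib_MP_752436_gt.Area
import Pool.Agent.Lib_MP_752436_gt.Degen

/-!
The curvature density of a disc in `R^4` over the normal vectors with positive definite second
fundamental form, and the area formula for the map of the normal bundle to `R^4`.
-/

open MeasureTheory Metric Set
open scoped ContDiff ENNReal

namespace Pool.Agent.Lib_MP_752436_fm

open Pool.Agent.Lib_MP_752436_gt

/-- The determinant of the quadratic form `u ↦ ⟨v, D²F(u, u)⟩`. -/
noncomputable def gq (F : EuclideanSpace ℝ (Fin 2) → EuclideanSpace ℝ (Fin 4))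
    (x : EuclideanSpace ℝ (Fin 2)) (v : EuclideanSpace ℝ (Fin 4)) : ℝ :=
  qf F 0 0 x v * qf F 1 1 x v - qf F 0 1 x v ^ 2

/-- `v` has length less than one and the quadratic form `⟨v, D²F⟩` is positive definite. -/
def PosQ (F : EuclideanSpace ℝ (Fin 2) → EuclideanSpace ℝ (Fin 4))
    (x : EuclideanSpace ℝ (Fin 2)) (v : EuclideanSpace ℝ (Fin 4)) : Prop :=
  ‖v‖ < 1 ∧ 0 < qf F 0 0 x v ∧ 0 < gq F x v

/-- `v` is in addition a normal vector at `x`. -/
def PosAt (F : EuclideanSpace ℝ (Fin 2) → EuclideanSpace ℝ (Fin 4))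
    (x : EuclideanSpace ℝ (Fin 2)) (v : EuclideanSpace ℝ (Fin 4)) : Prop :=
  (∀ u, (inner ℝ v (fderiv ℝ F x u) : ℝ) = 0) ∧ PosQ F x v

/-- The curvature density. -/
noncomputable def dens (F : EuclideanSpace ℝ (Fin 2) → EuclideanSpace ℝ (Fin 4))
    (T : Set (EuclideanSpace ℝ (Fin 4))) (x : EuclideanSpace ℝ (Fin 2)) : ℝ≥0∞ :=
  ∫⁻ v in {v | PosAt F x v ∧ v ∈ T}, ENNReal.ofReal (gq F x v / Real.sqrt (gdet F x)) ∂μHE[2]

/-- The vectors of `T` which are positive at some point of `O`. -/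
def posSet (F : EuclideanSpace ℝ (Fin 2) → EuclideanSpace ℝ (Fin 4))
    (O : Set (EuclideanSpace ℝ (Fin 2))) (T : Set (EuclideanSpace ℝ (Fin 4))) :
    Set (EuclideanSpace ℝ (Fin 4)) :=
  {v | ∃ x ∈ O, PosAt F x v ∧ v ∈ T}

/-- Change of variables for a linear injection of the plane. -/
theorem lintegral_plane (a c : EuclideanSpace ℝ (Fin 4)) (D : ℝ) (hD : 0 < D)
    (hG : (inner ℝ a a : ℝ) * inner ℝ c c - inner ℝ a c ^ 2 = D ^ 2)
    {S : Set (EuclideanSpace ℝ (Fin 4))} (hS : MeasurableSet S)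
    (hSr : ∀ v ∈ S, ∃ b : EuclideanSpace ℝ (Fin 2), b 0 • a + b 1 • c = v)
    (f : EuclideanSpace ℝ (Fin 4) → ℝ≥0∞) :
    ∫⁻ v in S, f v ∂μHE[2] = ENNReal.ofReal D *
      ∫⁻ b in {b : EuclideanSpace ℝ (Fin 2) | b 0 • a + b 1 • c ∈ S}, f (b 0 • a + b 1 • c) := by
  set L : EuclideanSpace ℝ (Fin 2) →ₗ[ℝ] EuclideanSpace ℝ (Fin 4) :=
    { toFun := fun b => b 0 • a + b 1 • c
      map_add' := fun b b' => by simp only [PiLp.add_apply]; module
      map_smul' := fun r b => by simp only [PiLp.smul_apply, smul_eq_mul, RingHom.id_apply]; module }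
    with hL
  have hLb : ∀ b, L b = b 0 • a + b 1 • c := fun b => rfl
  have hdet : L.normDet = D := by
    have h1 := L.normDet_sq_eq_det_gram (EuclideanSpace.basisFun (Fin 2) ℝ)
    rw [Matrix.det_fin_two] at h1
    simp only [Matrix.gram_apply, hLb, EuclideanSpace.basisFun_apply, PiLp.single_apply] at h1
    simp at h1
    rw [real_inner_comm a c, ← real_inner_self_eq_norm_sq, ← real_inner_self_eq_norm_sq] at h1
    have h2 : L.normDet ^ 2 = D ^ 2 := by
      rw [← hG]
      linarith [h1, sq (inner ℝ a c : ℝ)]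
    exact (pow_left_inj₀ L.normDet_nonneg hD.le two_ne_zero).1 h2
  have hinj : Function.Injective L := by
    rw [← LinearMap.ker_eq_bot]
    by_contra hne
    have := LinearMap.normDet_eq_zero_iff_ker_ne_bot.2 hne
    rw [hdet] at this
    exact hD.ne' this
  have hemb : MeasurableEmbedding L :=
    (LinearMap.isClosedEmbedding_of_injective (LinearMap.ker_eq_bot.2 hinj)).measurableEmbedding
  have hfr : Module.finrank ℝ (EuclideanSpace ℝ (Fin 2)) = 2 := finrank_euclideanSpace_fin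
  have key : (μHE[2] : Measure (EuclideanSpace ℝ (Fin 4))).restrict (range L) =
      ENNReal.ofReal D • Measure.map L volume := by
    ext s hs
    rw [Measure.restrict_apply hs, Measure.smul_apply, Measure.map_apply hemb.measurable hs,
      ← image_preimage_eq_inter_range, smul_eq_mul, ← hdet]
    have h1 := L.euclideanHausdorffMeasure_image_eq_normDet_mul_volume (L ⁻¹' s)
    rwa [hfr] at h1
  have hsub : S ∩ range L = S := by
    refine inter_eq_left.2 fun v hv => ?_
    obtain ⟨b, hb⟩ := hSr v hv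
    exact ⟨b, hb⟩
  calc ∫⁻ v in S, f v ∂μHE[2]
      = ∫⁻ v in S, f v ∂((μHE[2] : Measure (EuclideanSpace ℝ (Fin 4))).restrict (range L)) := by
        rw [Measure.restrict_restrict hS, hsub]
    _ = ENNReal.ofReal D * ∫⁻ v in S, f v ∂(Measure.map L volume) := by
        rw [key, Measure.restrict_smul, lintegral_smul_measure, smul_eq_mul]
    _ = _ := by
        rw [hemb.restrict_map, hemb.lintegral_map]
        rfl

section meas

variable {F : EuclideanSpace ℝ (Fin 2) → EuclideanSpace ℝ (Fin 4)}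

theorem measurable_gq (hF : ContDiff ℝ ∞ F) {α : Type*} [MeasurableSpace α]
    {f : α → EuclideanSpace ℝ (Fin 2)} {g : α → EuclideanSpace ℝ (Fin 4)} (hf : Measurable f)
    (hg : Measurable g) : Measurable (fun a => gq F (f a) (g a)) := by
  have h1 := measurable_qf hF 0 0 hf hg
  have h2 := measurable_qf hF 0 1 hf hg
  have h3 := measurable_qf hF 1 1 hf hg
  unfold gq
  fun_prop

theorem measurableSet_posQ (hF : ContDiff ℝ ∞ F) {α : Type*} [MeasurableSpace α]
    {f : α → EuclideanSpace ℝ (Fin 2)} {g : α → EuclideanSpace ℝ (Fin 4)} (hf : Measurable f)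
    (hg : Measurable g) : MeasurableSet {a | PosQ F (f a) (g a)} :=
  (measurableSet_lt hg.norm measurable_const).inter
    ((measurableSet_lt measurable_const (measurable_qf hF 0 0 hf hg)).inter
      (measurableSet_lt measurable_const (measurable_gq hF hf hg)))

theorem measurableSet_posAt (hF : ContDiff ℝ ∞ F) (x : EuclideanSpace ℝ (Fin 2))
    {T : Set (EuclideanSpace ℝ (Fin 4))} (hT : MeasurableSet T) :
    MeasurableSet {v | PosAt F x v ∧ v ∈ T} := by
  have h1 : IsClosed {v : EuclideanSpace ℝ (Fin 4) |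
      ∀ u, (inner ℝ v (fderiv ℝ F x u) : ℝ) = 0} := by
    have h2 : {v : EuclideanSpace ℝ (Fin 4) | ∀ u, (inner ℝ v (fderiv ℝ F x u) : ℝ) = 0} =
        ⋂ u, {v | (inner ℝ v (fderiv ℝ F x u) : ℝ) = 0} := by
      ext v
      simp
    rw [h2]
    exact isClosed_iInter fun u => isClosed_eq (by fun_prop) continuous_const
  exact (h1.measurableSet.inter
    (measurableSet_posQ hF (measurable_const (a := x)) measurable_id)).inter hT

end meas

/-- The density in the chart of the normal space given by the last two coordinates. -/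
theorem dens_chart {F : EuclideanSpace ℝ (Fin 2) → EuclideanSpace ℝ (Fin 4)}
    (hF : ContDiff ℝ ∞ F) {T : Set (EuclideanSpace ℝ (Fin 4))} (hT : MeasurableSet T)
    {x : EuclideanSpace ℝ (Fin 2)} (hm : minor F x ≠ 0) (hg : 0 < gdet F x) :
    dens F T x = ∫⁻ b in {b : EuclideanSpace ℝ (Fin 2) | PosQ F x (nrm F x b) ∧ nrm F x b ∈ T},
      ENNReal.ofReal (gq F x (nrm F x b) / |minor F x|) := by
  have hmpos : 0 < |minor F x| := abs_pos.2 hm
  have hsq : 0 < Real.sqrt (gdet F x) := Real.sqrt_pos.2 hg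
  have hD : 0 < Real.sqrt (gdet F x) / |minor F x| := div_pos hsq hmpos
  have hG : (inner ℝ (nrm F x !₂[1, 0]) (nrm F x !₂[1, 0]) : ℝ)
        * inner ℝ (nrm F x !₂[0, 1]) (nrm F x !₂[0, 1])
      - inner ℝ (nrm F x !₂[1, 0]) (nrm F x !₂[0, 1]) ^ 2
      = (Real.sqrt (gdet F x) / |minor F x|) ^ 2 := by
    rw [gram_nrm F x hm, div_pow, Real.sq_sqrt hg.le, sq_abs]
  unfold dens
  rw [lintegral_plane _ _ _ hD hG (measurableSet_posAt hF x hT) (fun v hv =>
    ⟨!₂[v 2, v 3], by rw [← nrm_eq_smul]; exact (eq_nrm F x hm v hv.1.1).symm⟩)]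
  rw [← lintegral_const_mul' _ _ ENNReal.ofReal_ne_top]
  have hset : {b : EuclideanSpace ℝ (Fin 2) | b 0 • nrm F x !₂[1, 0] + b 1 • nrm F x !₂[0, 1] ∈
      {v | PosAt F x v ∧ v ∈ T}} =
      {b : EuclideanSpace ℝ (Fin 2) | PosQ F x (nrm F x b) ∧ nrm F x b ∈ T} := by
    ext b
    simp only [mem_ofPred_eq]
    rw [← nrm_eq_smul]
    exact ⟨fun h => ⟨h.1.2, h.2⟩, fun h => ⟨⟨nrm_perp F x b hm, h.1⟩, h.2⟩⟩
  rw [hset]
  refine lintegral_congr fun b => ?_
  rw [← nrm_eq_smul, ← ENNReal.ofReal_mul hD.le]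
  congr 1
  field_simp

/-- The map of the normal bundle to `R^4` in coordinates. -/
noncomputable def phi (F : EuclideanSpace ℝ (Fin 2) → EuclideanSpace ℝ (Fin 4))
    (z : EuclideanSpace ℝ (Fin 4)) : EuclideanSpace ℝ (Fin 4) :=
  nrm F !₂[z 0, z 1] !₂[z 2, z 3]

/-- The parameters of the positive normal vectors. -/
def ps (F : EuclideanSpace ℝ (Fin 2) → EuclideanSpace ℝ (Fin 4))
    (O : Set (EuclideanSpace ℝ (Fin 2))) (T : Set (EuclideanSpace ℝ (Fin 4))) :
    Set (EuclideanSpace ℝ (Fin 4)) :=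
  {z | (!₂[z 0, z 1] : EuclideanSpace ℝ (Fin 2)) ∈ O ∧ PosQ F !₂[z 0, z 1] (phi F z) ∧
    phi F z ∈ T}

section piece

variable {F : EuclideanSpace ℝ (Fin 2) → EuclideanSpace ℝ (Fin 4)}
  {O : Set (EuclideanSpace ℝ (Fin 2))} {T : Set (EuclideanSpace ℝ (Fin 4))}

theorem measurable_zx : Measurable (fun z : EuclideanSpace ℝ (Fin 4) =>
    (!₂[z 0, z 1] : EuclideanSpace ℝ (Fin 2))) := measurable_mk2 (by fun_prop) (by fun_prop)

theorem measurable_zb : Measurable (fun z : EuclideanSpace ℝ (Fin 4) =>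
    (!₂[z 2, z 3] : EuclideanSpace ℝ (Fin 2))) := measurable_mk2 (by fun_prop) (by fun_prop)

theorem measurable_phi (hF : ContDiff ℝ ∞ F) : Measurable (phi F) :=
  measurable_nrm hF measurable_zx measurable_zb

theorem measurableSet_ps (hF : ContDiff ℝ ∞ F) (hO : MeasurableSet O) (hT : MeasurableSet T) :
    MeasurableSet (ps F O T) :=
  (measurable_zx hO).inter ((measurableSet_posQ hF measurable_zx (measurable_phi hF)).inter
    (measurable_phi hF hT))

/-- The integrand on `R^2 x R^2`. -/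
noncomputable def gint (F : EuclideanSpace ℝ (Fin 2) → EuclideanSpace ℝ (Fin 4))
    (O : Set (EuclideanSpace ℝ (Fin 2))) (T : Set (EuclideanSpace ℝ (Fin 4)))
    (x b : EuclideanSpace ℝ (Fin 2)) : ℝ≥0∞ :=
  {p : EuclideanSpace ℝ (Fin 2) × EuclideanSpace ℝ (Fin 2) | p.1 ∈ O ∧
    PosQ F p.1 (nrm F p.1 p.2) ∧ nrm F p.1 p.2 ∈ T}.indicator
    (fun p => ENNReal.ofReal (gq F p.1 (nrm F p.1 p.2) / |minor F p.1|)) (x, b)

theorem measurable_gint (hF : ContDiff ℝ ∞ F) (hO : MeasurableSet O) (hT : MeasurableSet T) :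
    Measurable (Function.uncurry (gint F O T)) := by
  have hn := measurable_nrm hF (measurable_fst : Measurable
    (Prod.fst : EuclideanSpace ℝ (Fin 2) × EuclideanSpace ℝ (Fin 2) → _))
    (measurable_snd : Measurable
    (Prod.snd : EuclideanSpace ℝ (Fin 2) × EuclideanSpace ℝ (Fin 2) → _))
  have hq := measurable_gq hF (measurable_fst : Measurable
    (Prod.fst : EuclideanSpace ℝ (Fin 2) × EuclideanSpace ℝ (Fin 2) → _)) hn
  have hmi := (measurable_minor hF).comp (measurable_fst : Measurable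
    (Prod.fst : EuclideanSpace ℝ (Fin 2) × EuclideanSpace ℝ (Fin 2) → _))
  simp only [Function.comp_def] at hmi
  have habs : Measurable (fun p : EuclideanSpace ℝ (Fin 2) × EuclideanSpace ℝ (Fin 2) =>
      |minor F p.1|) := by
    exact continuous_abs.measurable.comp hmi
  have hset : MeasurableSet {p : EuclideanSpace ℝ (Fin 2) × EuclideanSpace ℝ (Fin 2) |
      p.1 ∈ O ∧ PosQ F p.1 (nrm F p.1 p.2) ∧ nrm F p.1 p.2 ∈ T} :=
    (measurable_fst hO).inter ((measurableSet_posQ hF measurable_fst hn).inter (hn hT))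
  have : Function.uncurry (gint F O T) =
      {p : EuclideanSpace ℝ (Fin 2) × EuclideanSpace ℝ (Fin 2) | p.1 ∈ O ∧
        PosQ F p.1 (nrm F p.1 p.2) ∧ nrm F p.1 p.2 ∈ T}.indicator
      (fun p => ENNReal.ofReal (gq F p.1 (nrm F p.1 p.2) / |minor F p.1|)) := by
    funext p
    rfl
  rw [this]
  apply Measurable.indicator _ hset
  fun_prop

/-- The area formula on a piece on which the first minor does not vanish. -/
theorem area_piece (hF : ContDiff ℝ ∞ F) (hO : MeasurableSet O) (hT : MeasurableSet T)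
    (hm : ∀ x ∈ O, minor F x ≠ 0) (hg : ∀ x ∈ O, 0 < gdet F x) :
    ∫⁻ x in O, dens F T x =
      ∫⁻ z in ps F O T, ENNReal.ofReal |(fderiv ℝ (phi F) z).det| := by
  have hS := measurableSet_ps hF hO hT
  symm
  calc ∫⁻ z in ps F O T, ENNReal.ofReal |(fderiv ℝ (phi F) z).det|
      = ∫⁻ z : EuclideanSpace ℝ (Fin 4) in ps F O T, gint F O T !₂[z 0, z 1] !₂[z 2, z 3] := by
        refine setLIntegral_congr_fun hS fun z hz => ?_
        have h1 := (nrm_jac hF z (hm _ hz.1)).2
        have h2 : |(fderiv ℝ (phi F) z).det| = |gq F !₂[z 0, z 1] (phi F z)|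
          / |minor F !₂[z 0, z 1]| := h1
        have hmem : ((!₂[z 0, z 1] : EuclideanSpace ℝ (Fin 2)),
            (!₂[z 2, z 3] : EuclideanSpace ℝ (Fin 2))) ∈
            {p : EuclideanSpace ℝ (Fin 2) × EuclideanSpace ℝ (Fin 2) | p.1 ∈ O ∧
              PosQ F p.1 (nrm F p.1 p.2) ∧ nrm F p.1 p.2 ∈ T} := ⟨hz.1, hz.2.1, hz.2.2⟩
        simp only []
        rw [h2, abs_of_pos hz.2.1.2.2]
        unfold gint
        rw [indicator_of_mem hmem]
        rfl
    _ = ∫⁻ z : EuclideanSpace ℝ (Fin 4), gint F O T !₂[z 0, z 1] !₂[z 2, z 3] := by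
        rw [← lintegral_indicator hS]
        refine lintegral_congr fun z => ?_
        by_cases hz : z ∈ ps F O T
        · rw [indicator_of_mem hz]
        · rw [indicator_of_notMem hz]
          unfold gint
          rw [indicator_of_notMem]
          exact hz
    _ = ∫⁻ x, ∫⁻ b, gint F O T x b := lintegral_split (measurable_gint hF hO hT)
    _ = ∫⁻ x in O, ∫⁻ b, gint F O T x b := by
        rw [← lintegral_indicator hO]
        apply lintegral_congr
        intro x
        by_cases hx : x ∈ O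
        · rw [indicator_of_mem hx]
        · rw [indicator_of_notMem hx]
          have : ∀ b, gint F O T x b = 0 := by
            intro b
            unfold gint
            apply indicator_of_notMem
            rintro ⟨h, _⟩
            exact hx h
          simp [this]
    _ = ∫⁻ x in O, dens F T x := by
        refine setLIntegral_congr_fun hO fun x hx => ?_
        rw [dens_chart hF hT (hm x hx) (hg x hx)]
        have hn := measurable_nrm hF (measurable_const : Measurable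
          (fun _ : EuclideanSpace ℝ (Fin 2) => x)) (measurable_id : Measurable
          (fun b : EuclideanSpace ℝ (Fin 2) => b))
        have hset : MeasurableSet {b : EuclideanSpace ℝ (Fin 2) |
            PosQ F x (nrm F x b) ∧ nrm F x b ∈ T} :=
          (measurableSet_posQ hF measurable_const hn).inter (hn hT)
        rw [← lintegral_indicator hset]
        refine lintegral_congr fun b => ?_
        unfold gint
        by_cases hb : PosQ F x (nrm F x b) ∧ nrm F x b ∈ T
        · have h1 : (x, b) ∈ {p : EuclideanSpace ℝ (Fin 2) × EuclideanSpace ℝ (Fin 2) | p.1 ∈ O ∧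
              PosQ F p.1 (nrm F p.1 p.2) ∧ nrm F p.1 p.2 ∈ T} := ⟨hx, hb⟩
          have h2 : b ∈ {b : EuclideanSpace ℝ (Fin 2) |
            PosQ F x (nrm F x b) ∧ nrm F x b ∈ T} := hb
          rw [indicator_of_mem h1, indicator_of_mem h2]
        · have h1 : (x, b) ∉ {p : EuclideanSpace ℝ (Fin 2) × EuclideanSpace ℝ (Fin 2) | p.1 ∈ O ∧
              PosQ F p.1 (nrm F p.1 p.2) ∧ nrm F p.1 p.2 ∈ T} := fun h => hb h.2
          have h2 : b ∉ {b : EuclideanSpace ℝ (Fin 2) |
            PosQ F x (nrm F x b) ∧ nrm F x b ∈ T} := hb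
          rw [indicator_of_notMem h1, indicator_of_notMem h2]

theorem image_ps (hm : ∀ x ∈ O, minor F x ≠ 0) : phi F '' ps F O T = posSet F O T := by
  ext v
  constructor
  · rintro ⟨z, hz, rfl⟩
    exact ⟨_, hz.1, ⟨nrm_perp F _ _ (hm _ hz.1), hz.2.1⟩, hz.2.2⟩
  · rintro ⟨x, hx, ⟨hv, hq⟩, hvT⟩
    have hvn : nrm F x !₂[v 2, v 3] = v := (eq_nrm F x (hm x hx) v hv).symm
    have hz1 : (!₂[(!₂[x 0, x 1, v 2, v 3] : EuclideanSpace ℝ (Fin 4)) 0,
        (!₂[x 0, x 1, v 2, v 3] : EuclideanSpace ℝ (Fin 4)) 1] : EuclideanSpace ℝ (Fin 2)) = x := by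
      ext i; fin_cases i <;> rfl
    have hz2 : (!₂[(!₂[x 0, x 1, v 2, v 3] : EuclideanSpace ℝ (Fin 4)) 2,
        (!₂[x 0, x 1, v 2, v 3] : EuclideanSpace ℝ (Fin 4)) 3] : EuclideanSpace ℝ (Fin 2))
        = !₂[v 2, v 3] := by
      ext i; fin_cases i <;> rfl
    have hphi : phi F !₂[x 0, x 1, v 2, v 3] = v := by
      unfold phi
      rw [hz1, hz2, hvn]
    refine ⟨!₂[x 0, x 1, v 2, v 3], ⟨?_, ?_, ?_⟩, hphi⟩
    · rw [hz1]; exact hx
    · rw [hphi, hz1]; exact hq
    · rw [hphi]; exact hvT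

theorem posSet_le_piece (hF : ContDiff ℝ ∞ F) (hO : MeasurableSet O) (hT : MeasurableSet T)
    (hm : ∀ x ∈ O, minor F x ≠ 0) (hg : ∀ x ∈ O, 0 < gdet F x) :
    volume (posSet F O T) ≤ ∫⁻ x in O, dens F T x := by
  rw [area_piece hF hO hT hm hg, ← image_ps hm]
  exact addHaar_image_le_lintegral_abs_det_fderiv volume (measurableSet_ps hF hO hT)
    (fun z hz => ((nrm_jac hF z (hm _ hz.1)).1.hasFDerivAt).hasFDerivWithinAt)

theorem posSet_eq_piece (hF : ContDiff ℝ ∞ F) (hO : MeasurableSet O) (hT : MeasurableSet T)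
    (hm : ∀ x ∈ O, minor F x ≠ 0) (hg : ∀ x ∈ O, 0 < gdet F x)
    (huniq : ∀ x ∈ O, ∀ y ∈ O, ∀ v ∈ T, PosAt F x v → PosAt F y v → x = y) :
    ∫⁻ x in O, dens F T x = volume (posSet F O T) := by
  rw [area_piece hF hO hT hm hg, ← image_ps hm]
  refine lintegral_abs_det_fderiv_eq_addHaar_image volume (measurableSet_ps hF hO hT)
    (fun z hz => ((nrm_jac hF z (hm _ hz.1)).1.hasFDerivAt).hasFDerivWithinAt) ?_
  intro z hz w hw hzw
  have h1 : PosAt F !₂[z 0, z 1] (phi F z) := ⟨nrm_perp F _ _ (hm _ hz.1), hz.2.1⟩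
  have h2 : PosAt F !₂[w 0, w 1] (phi F w) := ⟨nrm_perp F _ _ (hm _ hw.1), hw.2.1⟩
  have h3 : (!₂[z 0, z 1] : EuclideanSpace ℝ (Fin 2)) = !₂[w 0, w 1] :=
    huniq _ hz.1 _ hw.1 (phi F z) hz.2.2 h1 (by rw [hzw]; exact h2)
  have e0 := congrArg (fun y : EuclideanSpace ℝ (Fin 2) => y 0) h3
  have e1 := congrArg (fun y : EuclideanSpace ℝ (Fin 2) => y 1) h3
  have e2 := congrArg (fun y : EuclideanSpace ℝ (Fin 4) => y 2) hzw
  have e3 := congrArg (fun y : EuclideanSpace ℝ (Fin 4) => y 3) hzw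
  simp [phi, nrm] at e0 e1 e2 e3
  ext i
  fin_cases i
  · exact e0
  · exact e1
  · exact e2
  · exact e3

end piece

section rot

variable {F : EuclideanSpace ℝ (Fin 2) → EuclideanSpace ℝ (Fin 4)}
  (R : EuclideanSpace ℝ (Fin 4) ≃ₗᵢ[ℝ] EuclideanSpace ℝ (Fin 4))

theorem qf_rot (hF : ContDiff ℝ ∞ F) (i j : Fin 2) (x : EuclideanSpace ℝ (Fin 2))
    (v : EuclideanSpace ℝ (Fin 4)) : qf (fun y => R (F y)) i j x (R v) = qf F i j x v := by
  unfold qf
  rw [d2_rot R hF, R.inner_map_map]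

theorem posAt_rot (hF : ContDiff ℝ ∞ F) (x : EuclideanSpace ℝ (Fin 2))
    (v : EuclideanSpace ℝ (Fin 4)) : PosAt (fun y => R (F y)) x (R v) ↔ PosAt F x v := by
  unfold PosAt PosQ gq
  simp only [qf_rot R hF, fderiv_rot_apply R hF, R.inner_map_map, R.norm_map]

theorem dens_rot (hF : ContDiff ℝ ∞ F) (T : Set (EuclideanSpace ℝ (Fin 4)))
    (x : EuclideanSpace ℝ (Fin 2)) :
    dens (fun y => R (F y)) T x = dens F (R ⁻¹' T) x := by
  unfold dens
  have h1 : MeasurePreserving R (μHE[2] : Measure (EuclideanSpace ℝ (Fin 4))) μHE[2] :=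
    R.toIsometryEquiv.measurePreserving_euclideanHausdorffMeasure 2
  rw [← h1.setLIntegral_comp_preimage_emb R.toHomeomorph.measurableEmbedding]
  have hset : (R ⁻¹' {v | PosAt (fun y => R (F y)) x v ∧ v ∈ T}) =
      {v | PosAt F x v ∧ v ∈ R ⁻¹' T} := by
    ext v
    simp only [mem_preimage, mem_ofPred_eq]
    rw [posAt_rot R hF]
  rw [hset]
  refine lintegral_congr fun v => ?_
  unfold gq
  rw [qf_rot R hF, qf_rot R hF, qf_rot R hF, gdet_comp R hF]

theorem volume_posSet_rot (hF : ContDiff ℝ ∞ F) (O : Set (EuclideanSpace ℝ (Fin 2)))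
    (T : Set (EuclideanSpace ℝ (Fin 4))) :
    volume (posSet (fun y => R (F y)) O T) = volume (posSet F O (R ⁻¹' T)) := by
  have hset : R ⁻¹' (posSet (fun y => R (F y)) O T) = posSet F O (R ⁻¹' T) := by
    ext v
    simp only [posSet, mem_preimage, mem_ofPred_eq, posAt_rot R hF]
  rw [← hset]
  exact (R.measurePreserving.measure_preimage_emb R.toHomeomorph.measurableEmbedding _).symm

end rot

end Pool.Agent.Lib_MP_752436_fm
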