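import Pool.Agent.Lib_MP_752436_fm.Near

/-!
Directions far from the vertical: their contribution to the curvature of a stretched disc tends to
zero.
-/

open MeasureTheory Metric Set
open scoped ContDiff ENNReal Topology

namespace Pool.Agent.Lib_MP_752436_fm

open Pool.Agent.Lib_MP_752436_gt Pool.Agent.Lib_MP_752436_mv Pool.Agent.Lib_MP_752436_dm

variable {F : EuclideanSpace ℝ (Fin 2) → EuclideanSpace ℝ (Fin 4)}

theorem volume_box {s : ℝ} (hs : 0 < s) :
    volume {b : EuclideanSpace ℝ (Fin 2) | |b 0| ≤ 1 ∧ 0 < b 1 ∧ b 1 < 1 / s} ≤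
      ENNReal.ofReal (2 / s) := by
  have h1 : MeasurePreserving (fun y : EuclideanSpace ℝ (Fin 2) => (WithLp.ofLp y : Fin 2 → ℝ)) :=
    PiLp.volume_preserving_ofLp (Fin 2)
  have hsub : {b : EuclideanSpace ℝ (Fin 2) | |b 0| ≤ 1 ∧ 0 < b 1 ∧ b 1 < 1 / s} ⊆
      (fun y : EuclideanSpace ℝ (Fin 2) => (WithLp.ofLp y : Fin 2 → ℝ)) ⁻¹'
        (Icc ![-1, 0] ![1, 1 / s]) := by
    rintro b ⟨h0, h1, h2⟩
    rw [abs_le] at h0
    refine ⟨fun i => ?_, fun i => ?_⟩
    · fin_cases i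
      · exact h0.1
      · exact h1.le
    · fin_cases i
      · exact h0.2
      · exact h2.le
  calc volume {b : EuclideanSpace ℝ (Fin 2) | |b 0| ≤ 1 ∧ 0 < b 1 ∧ b 1 < 1 / s}
      ≤ volume ((fun y : EuclideanSpace ℝ (Fin 2) => (WithLp.ofLp y : Fin 2 → ℝ)) ⁻¹'
        (Icc ![-1, 0] ![1, 1 / s])) := measure_mono hsub
    _ = volume (Icc (![-1, 0] : Fin 2 → ℝ) ![1, 1 / s]) :=
        h1.measure_preimage measurableSet_Icc.nullMeasurableSet
    _ = ENNReal.ofReal (2 / s) := by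
        rw [Real.volume_Icc_pi, Fin.prod_univ_two, ← ENNReal.ofReal_mul (by norm_num)]
        congr 1
        norm_num
        ring

theorem rot_three {e : Equiv.Perm (Fin 4)} (he : e.symm 3 = 3) (v : EuclideanSpace ℝ (Fin 4)) :
    LinearIsometryEquiv.piLpCongrLeft 2 ℝ ℝ e v 3 = v 3 := by
  have : LinearIsometryEquiv.piLpCongrLeft 2 ℝ ℝ e v 3 = v (e.symm 3) := rfl
  rw [this, he]

theorem dens_far_le (hF : ContDiff ℝ ∞ F) {c ρ M m0 : ℝ} (hc : 0 < c) (hρ : 0 < ρ) (hM : 0 ≤ M)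
    (hm0 : 0 < m0) {e : Equiv.Perm (Fin 4)} (he : e.symm 3 = 3) {x : EuclideanSpace ℝ (Fin 2)}
    (hg : 0 < gdet (fun y => str c (F y)) x)
    (hm : m0 ≤ |minor (fun y => LinearIsometryEquiv.piLpCongrLeft 2 ℝ ℝ e (F y)) x|)
    (h00 : ‖d2 F 0 0 x‖ ≤ M) (h11 : ‖d2 F 1 1 x‖ ≤ M) :
    dens (fun y => str c (F y)) (far (c * ρ)) x ≤
      ENNReal.ofReal ((1 + 1 / ρ ^ 2) * M ^ 2 / m0 * (2 / (c * ρ))) := by
  set R := LinearIsometryEquiv.piLpCongrLeft 2 ℝ ℝ e with hR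
  set G : EuclideanSpace ℝ (Fin 2) → EuclideanSpace ℝ (Fin 4) := fun y => R (str c (F y)) with hG
  have hFc := contDiff_str c hF
  have hGs : ContDiff ℝ ∞ G := contDiff_comp_isometry R hFc
  have hfar : R ⁻¹' (far (c * ρ)) = far (c * ρ) := by
    ext v
    simp only [far, mem_preimage, mem_ofPred_eq]
    rw [hR, rot_three he, LinearIsometryEquiv.norm_map]
  have hs : 0 < c * ρ := mul_pos hc hρ
  have hminor : minor G x = minor (fun y => R (F y)) x := minor_perm_str c hF he x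
  have hmpos : 0 < |minor G x| := by rw [hminor]; exact hm0.trans_le hm
  have h1 : dens (fun y => str c (F y)) (far (c * ρ)) x = dens G (far (c * ρ)) x := by
    rw [hG, dens_rot R hFc, hfar]
  rw [h1, dens_chart hGs (measurableSet_far _) (abs_pos.1 hmpos) (by
    rw [hG, gdet_comp R hFc]; exact hg)]
  set S : Set (EuclideanSpace ℝ (Fin 2)) :=
    {b | PosQ G x (nrm G x b) ∧ nrm G x b ∈ far (c * ρ)} with hS
  have hn := measurable_nrm hGs (measurable_const : Measurable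
    (fun _ : EuclideanSpace ℝ (Fin 2) => x)) (measurable_id : Measurable
    (fun b : EuclideanSpace ℝ (Fin 2) => b))
  have hSm : MeasurableSet S :=
    (measurableSet_posQ hGs measurable_const hn).inter (hn (measurableSet_far _))
  have hsub : S ⊆ {b : EuclideanSpace ℝ (Fin 2) | |b 0| ≤ 1 ∧ 0 < b 1 ∧ b 1 < 1 / (c * ρ)} := by
    rintro b ⟨⟨hn1, -, -⟩, h3, hfar⟩
    have e2 : nrm G x b 2 = b 0 := rfl
    have e3' : nrm G x b 3 = b 1 := rfl
    have hnn : ‖nrm G x b‖ ^ 2 = nrm G x b 0 ^ 2 + nrm G x b 1 ^ 2 + b 0 ^ 2 + b 1 ^ 2 := by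
      rw [← real_inner_self_eq_norm_sq, normal_inner4, e2, e3']
      ring
    have hlt : ‖nrm G x b‖ ^ 2 < 1 := by
      have := norm_nonneg (nrm G x b)
      nlinarith
    rw [e3'] at h3 hfar
    refine ⟨?_, h3, ?_⟩
    · rw [abs_le]
      constructor <;> nlinarith [sq_nonneg (nrm G x b 0), sq_nonneg (nrm G x b 1), sq_nonneg (b 1)]
    · rw [lt_div_iff₀ hs]
      have h5 : (b 1 * (c * ρ)) ^ 2 < 1 := by nlinarith [sq_nonneg (b 1)]
      have h6 : 0 < b 1 * (c * ρ) := mul_pos h3 hs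
      nlinarith
  have hint : ∀ b ∈ S, ENNReal.ofReal (gq G x (nrm G x b) / |minor G x|) ≤
      ENNReal.ofReal ((1 + 1 / ρ ^ 2) * M ^ 2 / m0) := by
    rintro b ⟨⟨hn1, -, hpos⟩, h3, hfr⟩
    set v := nrm G x b with hv
    set v' := R.symm v with hv'
    have hvR : v = R v' := by rw [hv', R.apply_symm_apply]
    have hgq : gq G x v = gq F x (str c v') := by
      rw [← gq_str c hF, hvR]
      unfold gq
      rw [hG, qf_rot R hFc, qf_rot R hFc, qf_rot R hFc]
    have hnorm : ‖v‖ = ‖v'‖ := by rw [hvR, R.norm_map]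
    have h33 : v 3 = v' 3 := by rw [hvR, hR, rot_three he]
    have hw : ‖str c v'‖ ^ 2 ≤ 1 + 1 / ρ ^ 2 := by
      rw [norm_sq_str, ← hnorm, ← h33]
      have hlt : ‖v‖ ^ 2 < 1 := by
        have := norm_nonneg v
        nlinarith
      have h5 : c ^ 2 * v 3 ^ 2 * ρ ^ 2 ≤ ‖v‖ ^ 2 - v 3 ^ 2 := by nlinarith
      have h6 : c ^ 2 * v 3 ^ 2 ≤ 1 / ρ ^ 2 := by
        rw [le_div_iff₀ (by positivity)]
        nlinarith [sq_nonneg (v 3)]
      nlinarith [sq_nonneg (v 3)]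
    have hq : ∀ i, ‖d2 F i i x‖ ≤ M → |qf F i i x (str c v')| ≤ ‖str c v'‖ * M := fun i hi =>
      (abs_real_inner_le_norm _ _).trans (mul_le_mul_of_nonneg_left hi (norm_nonneg _))
    have hle : gq G x v ≤ (1 + 1 / ρ ^ 2) * M ^ 2 := by
      rw [hgq]
      have h0 := hq 0 h00
      have h1 := hq 1 h11
      calc gq F x (str c v') ≤ qf F 0 0 x (str c v') * qf F 1 1 x (str c v') := by
            unfold gq
            nlinarith [sq_nonneg (qf F 0 1 x (str c v'))]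
        _ ≤ |qf F 0 0 x (str c v')| * |qf F 1 1 x (str c v')| := by
            rw [← abs_mul]
            exact le_abs_self _
        _ ≤ (‖str c v'‖ * M) * (‖str c v'‖ * M) :=
            mul_le_mul h0 h1 (abs_nonneg _) (by positivity)
        _ = ‖str c v'‖ ^ 2 * M ^ 2 := by ring
        _ ≤ _ := mul_le_mul_of_nonneg_right hw (by positivity)
    apply ENNReal.ofReal_le_ofReal
    have hmm : m0 ≤ |minor G x| := by rw [hminor]; exact hm
    exact div_le_div₀ (by positivity) hle hm0 hmm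
  calc ∫⁻ b in S, ENNReal.ofReal (gq G x (nrm G x b) / |minor G x|)
      ≤ ∫⁻ _ in S, ENNReal.ofReal ((1 + 1 / ρ ^ 2) * M ^ 2 / m0) := setLIntegral_mono' hSm hint
    _ = ENNReal.ofReal ((1 + 1 / ρ ^ 2) * M ^ 2 / m0) * volume S := by
        rw [setLIntegral_const]
    _ ≤ ENNReal.ofReal ((1 + 1 / ρ ^ 2) * M ^ 2 / m0) * ENNReal.ofReal (2 / (c * ρ)) := by
        gcongr
        exact (measure_mono hsub).trans (volume_box hs)
    _ = _ := (ENNReal.ofReal_mul (by positivity)).symm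

theorem continuous_minor (hF : ContDiff ℝ ∞ F) : Continuous (minor F) := by
  have h1 := continuous_d1 hF 0
  have h2 := continuous_d1 hF 1
  unfold minor
  fun_prop

/-- A uniform lower bound for the minors of the shadow. -/
theorem exists_minor_bound (hF : ContDiff ℝ ∞ F)
    (himm : ∀ x ∈ closedBall (0 : EuclideanSpace ℝ (Fin 2)) 1, ∀ u,
      (∀ i, i ≠ 3 → fderiv ℝ F x u i = 0) → u = 0) :
    ∃ m0 > 0, ∀ x ∈ closedBall (0 : EuclideanSpace ℝ (Fin 2)) 1,
      ∃ e : Equiv.Perm (Fin 4), e.symm 3 = 3 ∧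
        m0 ≤ |minor (fun y => LinearIsometryEquiv.piLpCongrLeft 2 ℝ ℝ e (F y)) x| := by
  classical
  set A : Finset (Equiv.Perm (Fin 4)) := Finset.univ.filter (fun e => e.symm 3 = 3) with hA
  set f : Equiv.Perm (Fin 4) → EuclideanSpace ℝ (Fin 2) → ℝ := fun e x =>
    |minor (fun y => LinearIsometryEquiv.piLpCongrLeft 2 ℝ ℝ e (F y)) x| with hf
  have hfc : ∀ e, Continuous (f e) := fun e =>
    (continuous_minor (contDiff_comp_isometry _ hF)).abs
  have hcont : Continuous (fun x => ∑ e ∈ A, f e x) := continuous_finsetSum _ fun e _ => hfc e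
  obtain ⟨x₀, hx₀, hmin⟩ := (isCompact_closedBall (0 : EuclideanSpace ℝ (Fin 2)) 1).exists_isMinOn
    (nonempty_closedBall.2 zero_le_one) hcont.continuousOn
  have hpos : 0 < ∑ e ∈ A, f e x₀ := by
    obtain ⟨e, he, hne⟩ := exists_perm_shadow (F := F) (himm x₀ hx₀)
    exact Finset.sum_pos' (fun _ _ => abs_nonneg _)
      ⟨e, Finset.mem_filter.2 ⟨Finset.mem_univ _, he⟩, abs_pos.2 hne⟩
  set m0 : ℝ := (∑ e ∈ A, f e x₀) / (A.card + 1) with hm0
  refine ⟨m0, by positivity, fun x hx => ?_⟩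
  by_contra hcon
  push Not at hcon
  have h1 : ∑ e ∈ A, f e x ≤ A.card • m0 := Finset.sum_le_card_nsmul _ _ _ fun e he =>
    (hcon e (Finset.mem_filter.1 he).2).le
  have h2 : ∑ e ∈ A, f e x₀ ≤ ∑ e ∈ A, f e x := hmin hx
  have h3 : m0 * (A.card + 1) = ∑ e ∈ A, f e x₀ := by
    rw [hm0]
    field_simp
  rw [nsmul_eq_mul] at h1
  have h4 : 0 < m0 := by positivity
  nlinarith

end Pool.Agent.Lib_MP_752436_fm
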