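import Pool.Agent.Lib_MP_752436_fm.Final

/-!
A Fáry-Milnor theorem for slice discs: the least number of births of the Morse slice discs isotopic to
a slice disc is the infimum, over the isotopy class, of the total curvature in the upward normal
directions in which the disc is strictly convex, divided by `π²`.
-/

namespace Pool.Agent.Lib_MP_752436_fm.FaryMilnor

open MeasureTheory Metric Set
open scoped ENNReal
open Pool.Agent.Lib_MP_752436_gt Pool.Agent.Lib_MP_752436_tp Pool.Agent.Lib_MP_752436_rb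
  Pool.Agent.Lib_MP_752436_rc Pool.Agent.Lib_MP_752436_hg Pool.Agent.Lib_MP_752436_hk
  Pool.Agent.Lib_MP_752436_fm

/-- `K` is a smoothly slice knot: the boundary of a smoothly embedded disc in `R^4_{t >= 0}` which
meets the boundary hyperplane exactly along its boundary. -/
def IsSliceKnot (K : Set (EuclideanSpace ℝ (Fin 3))) : Prop :=
  ∃ F, IsSliceDisc F ∧ boundaryKnot F = K

/-- The normal vectors `ν` of the disc at `F x`, of length less than one and with `0 < ν 3` (upward),
for which the second fundamental form in the direction `ν` is positive definite. -/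
def convexNormals (F : EuclideanSpace ℝ (Fin 2) → EuclideanSpace ℝ (Fin 4))
    (x : EuclideanSpace ℝ (Fin 2)) : Set (EuclideanSpace ℝ (Fin 4)) :=
  {ν | (∀ u, (inner ℝ ν (fderiv ℝ F x u) : ℝ) = 0) ∧ ‖ν‖ < 1 ∧ 0 < ν 3 ∧
    ∀ u, u ≠ 0 → 0 < (inner ℝ ν (fderiv ℝ (fderiv ℝ F) x u u) : ℝ)}

/-- The determinant of the second fundamental form in the normal direction `ν` with respect to the
first fundamental form: `(⟨ν, F_00⟩ ⟨ν, F_11⟩ - ⟨ν, F_01⟩²) / det g`. -/
noncomputable def detSecond (F : EuclideanSpace ℝ (Fin 2) → EuclideanSpace ℝ (Fin 4))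
    (x : EuclideanSpace ℝ (Fin 2)) (ν : EuclideanSpace ℝ (Fin 4)) : ℝ :=
  ((inner ℝ ν (d1 (d1 F 0) 0 x) : ℝ) * inner ℝ ν (d1 (d1 F 1) 1 x)
    - inner ℝ ν (d1 (d1 F 1) 0 x) ^ 2) / gdet F x

/-- The upward convex curvature of the disc: the integral over the points `p` of the disc (with
respect to the area `√(det g) dx`) and over the upward unit normal vectors `ν` at `p` with positive
definite second fundamental form `A_ν` (with respect to the length on the unit circle of the normal
plane) of `det A_ν`. As `det A_ν` is homogeneous of degree two in `ν`, the integral over the unit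
vectors is four times the integral over the vectors of length less than one, with respect to the
area `μHE[2]` on the normal plane (the Hausdorff measure, normalised by the Lebesgue measure). -/
noncomputable def curvature (F : EuclideanSpace ℝ (Fin 2) → EuclideanSpace ℝ (Fin 4)) : ℝ≥0∞ :=
  ∫⁻ x in ball (0 : EuclideanSpace ℝ (Fin 2)) 1,
    4 * (∫⁻ ν in convexNormals F x, ENNReal.ofReal (detSecond F x ν) ∂μHE[2])
      * ENNReal.ofReal (Real.sqrt (gdet F x))

/-- `F` is isotopic to a Morse slice disc with `n` births. -/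
def HasBirths (F : EuclideanSpace ℝ (Fin 2) → EuclideanSpace ℝ (Fin 4)) (n : ℕ) : Prop :=
  ∃ G, DiscIsotopic F G ∧ MorseDisc G ∧ (births G).Finite ∧ (births G).ncard = n

/-- `K` bounds a Morse slice disc with `n` births. -/
def KnotHasBirths (K : Set (EuclideanSpace ℝ (Fin 3))) (n : ℕ) : Prop :=
  ∃ G, MorseDisc G ∧ boundaryKnot G = K ∧ (births G).Finite ∧ (births G).ncard = n

theorem curvature_eq {F : EuclideanSpace ℝ (Fin 2) → EuclideanSpace ℝ (Fin 4)}
    (hF : IsSliceDisc F) : curvature F = 4 * kap F := by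
  have hs := hF.smooth
  have h1 : kap F = ∫⁻ x in ball (0 : EuclideanSpace ℝ (Fin 2)) 1, dens F upper x := by
    unfold kap
    apply setLIntegral_congr
    rw [← ball_union_sphere]
    exact union_ae_eq_left_of_ae_eq_empty
      (ae_eq_empty.2 (Measure.addHaar_sphere (volume : Measure (EuclideanSpace ℝ (Fin 2))) _ _))
  rw [h1, ← lintegral_const_mul' _ _ (by norm_num)]
  unfold curvature
  refine setLIntegral_congr_fun isOpen_ball.measurableSet fun x hx => ?_
  have hg : 0 < gdet F x := gdet_pos (hF.immersion x (ball_subset_closedBall hx))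
  have hsq : 0 < Real.sqrt (gdet F x) := Real.sqrt_pos.2 hg
  have hset : convexNormals F x = {v | PosAt F x v ∧ v ∈ upper} := by
    ext v
    constructor
    · rintro ⟨h1, h2, h3, h4⟩
      exact ⟨⟨h1, h2, posDef_coeff hs h4⟩, h3⟩
    · rintro ⟨⟨h1, h2, h3, h4⟩, h5⟩
      exact ⟨h1, h2, h5, posDef_of_coeff hs h3 h4⟩
  show 4 * (∫⁻ ν in convexNormals F x, ENNReal.ofReal (detSecond F x ν) ∂μHE[2])
      * ENNReal.ofReal (Real.sqrt (gdet F x)) = 4 * dens F upper x
  rw [mul_assoc]
  congr 1
  unfold dens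
  rw [hset, ← lintegral_mul_const' _ _ ENNReal.ofReal_ne_top]
  refine lintegral_congr fun v => ?_
  rw [← ENNReal.ofReal_mul' hsq.le]
  congr 1
  unfold detSecond gq qf
  rw [d1_d1 hs, d1_d1 hs, d1_d1 hs]
  have h2 : Real.sqrt (gdet F x) * Real.sqrt (gdet F x) = gdet F x := Real.mul_self_sqrt hg.le
  rw [div_mul_eq_mul_div, div_eq_div_iff hg.ne' hsq.ne', mul_assoc, h2]

theorem four_mul (n : ℕ) : 4 * ((n : ℝ≥0∞) * ENNReal.ofReal (Real.pi ^ 2 / 4)) =
    ENNReal.ofReal (Real.pi ^ 2 * n) := by
  have h1 : (n : ℝ≥0∞) = ENNReal.ofReal (n : ℝ) := by simp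
  have h4 : (4 : ℝ≥0∞) = ENNReal.ofReal 4 := by simp
  rw [h1, h4, ← ENNReal.ofReal_mul (by positivity), ← ENNReal.ofReal_mul (by positivity)]
  congr 1
  ring

theorem lower (F : EuclideanSpace ℝ (Fin 2) → EuclideanSpace ℝ (Fin 4)) (hF : IsSliceDisc F) :
    ∃ G, DiscIsotopic F G ∧ MorseDisc G ∧ (births G).Finite ∧
      (∀ x, ∀ i, i ≠ 3 → G x i = F x i) ∧
      ENNReal.ofReal (Real.pi ^ 2 * (births G).ncard) ≤ curvature F := by
  obtain ⟨G, h1, h2, h3, h4, h5⟩ := exists_births_mul_le_shadow hF
  refine ⟨G, h1, h2, h3, h4, ?_⟩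
  rw [curvature_eq hF, ← four_mul]
  gcongr

theorem upper_bound (F : EuclideanSpace ℝ (Fin 2) → EuclideanSpace ℝ (Fin 4)) (hF : MorseDisc F)
    (ε : ℝ) (hε : 0 < ε) : ∃ G, DiscIsotopic F G ∧
      curvature G < ENNReal.ofReal (Real.pi ^ 2 * (births F).ncard + ε) := by
  obtain ⟨G, h1, h2⟩ := exists_kap_le hF (ε := ε / 8) (by positivity)
  refine ⟨G, h1, ?_⟩
  rw [curvature_eq h1.slice_right]
  calc 4 * kap G ≤ 4 * (((births F).ncard : ℝ≥0∞) * ENNReal.ofReal (Real.pi ^ 2 / 4)
        + ENNReal.ofReal (ε / 8)) := by gcongr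
    _ = ENNReal.ofReal (Real.pi ^ 2 * (births F).ncard + ε / 2) := by
        rw [mul_add, four_mul, ENNReal.ofReal_add (by positivity) (by positivity)]
        congr 1
        have h4 : (4 : ℝ≥0∞) = ENNReal.ofReal 4 := by simp
        rw [h4, ← ENNReal.ofReal_mul (by positivity)]
        congr 1
        ring
    _ < _ := by
        rw [ENNReal.ofReal_lt_ofReal_iff (by positivity)]
        linarith

/-- **Fáry-Milnor theorem for slice discs.**
(1) Every slice disc `F` is isotopic, by slice discs with the same boundary curve, to a Morse slice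
disc `G` with finitely many births (interior local minima of the height) and
`π² · #births(G) ≤ curvature F`; moreover `G` differs from `F` only in the height.
(2) A Morse slice disc `F` has finitely many births and for every `ε > 0` it is isotopic to a slice
disc `G` with `curvature G < π² · #births(F) + ε`.
(3) So for a slice disc `F` the infimum of the curvature over the isotopy class of `F` is `π² n`, where
`n` is the least number of births of the Morse slice discs isotopic to `F`.
(4) For a slice knot `K` the infimum of the curvature of the slice discs with boundary `K` is `π² n`,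
where `n` is the least number of births of the Morse slice discs with boundary `K`.
(5) `K` is a ribbon knot if and only if it bounds a slice disc of curvature less than `π²`, and if and
only if it bounds slice discs of curvature less than `ε` for every `ε > 0`.
(6) Every slice knot is ribbon if and only if every slice knot bounds a slice disc of curvature less
than `π²`. -/
theorem result :
    (∀ F, IsSliceDisc F → ∃ G, DiscIsotopic F G ∧ MorseDisc G ∧ (births G).Finite ∧
      (∀ x, ∀ i, i ≠ 3 → G x i = F x i) ∧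
      ENNReal.ofReal (Real.pi ^ 2 * (births G).ncard) ≤ curvature F) ∧
    (∀ F, MorseDisc F → (births F).Finite ∧ ∀ ε : ℝ, 0 < ε → ∃ G, DiscIsotopic F G ∧
      curvature G < ENNReal.ofReal (Real.pi ^ 2 * (births F).ncard + ε)) ∧
    (∀ F, IsSliceDisc F → ∃ n : ℕ, IsLeast {m | HasBirths F m} n ∧
      IsGLB (curvature '' {G | DiscIsotopic F G}) (ENNReal.ofReal (Real.pi ^ 2 * n))) ∧
    (∀ K, IsSliceKnot K → ∃ n : ℕ, IsLeast {m | KnotHasBirths K m} n ∧
      IsGLB (curvature '' {G | IsSliceDisc G ∧ boundaryKnot G = K})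
        (ENNReal.ofReal (Real.pi ^ 2 * n))) ∧
    (∀ K : Set (EuclideanSpace ℝ (Fin 3)),
      (IsRibbonKnot K ↔ ∃ F, IsSliceDisc F ∧ boundaryKnot F = K ∧
        curvature F < ENNReal.ofReal (Real.pi ^ 2)) ∧
      (IsRibbonKnot K ↔ ∀ ε : ℝ, 0 < ε → ∃ F, IsSliceDisc F ∧ boundaryKnot F = K ∧
        curvature F < ENNReal.ofReal ε)) ∧
    ((∀ K, IsSliceKnot K → IsRibbonKnot K) ↔
      ∀ K, IsSliceKnot K → ∃ F, IsSliceDisc F ∧ boundaryKnot F = K ∧
        curvature F < ENNReal.ofReal (Real.pi ^ 2)) := by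
  classical
  have hpi := Real.pi_pos
  have hrib : ∀ K : Set (EuclideanSpace ℝ (Fin 3)), IsRibbonKnot K → ∀ ε : ℝ, 0 < ε →
      ∃ F, IsSliceDisc F ∧ boundaryKnot F = K ∧ curvature F < ENNReal.ofReal ε := by
    intro K hK ε hε
    obtain ⟨F, hF, hb, hFK, -⟩ := exists_immersed_of_ribbon hK
    obtain ⟨G, hFG, hlt⟩ := upper_bound F hF ε hε
    rw [hb, ncard_empty] at hlt
    exact ⟨G, hFG.slice_right, hFG.boundaryKnot_eq.trans hFK, by simpa using hlt⟩
  have hrib' : ∀ K : Set (EuclideanSpace ℝ (Fin 3)), (∃ F, IsSliceDisc F ∧ boundaryKnot F = K ∧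
      curvature F < ENNReal.ofReal (Real.pi ^ 2)) → IsRibbonKnot K := by
    rintro K ⟨F, hF, rfl, hlt⟩
    obtain ⟨G, hFG, hG, hfin, -, hle⟩ := lower F hF
    have h1 := hle.trans_lt hlt
    rw [ENNReal.ofReal_lt_ofReal_iff (by positivity)] at h1
    have h2 : ((births G).ncard : ℝ) < 1 := by
      have h3 : 0 < Real.pi ^ 2 := by positivity
      nlinarith
    have h3 : (births G).ncard = 0 := by
      have : (births G).ncard < 1 := by exact_mod_cast h2
      omega
    rw [← hFG.boundaryKnot_eq]
    exact isRibbonKnot_of_noBirths hG ((ncard_eq_zero hfin).1 h3)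
  refine ⟨lower, fun F hF => ⟨finite_births' hF, upper_bound F hF⟩, fun F hF => ?_,
    fun K hK => ?_, fun K => ⟨⟨fun h => hrib K h _ (by positivity), hrib' K⟩, ⟨hrib K, fun h =>
      hrib' K (h _ (by positivity))⟩⟩, ⟨fun h K hK => hrib K (h K hK) _ (by positivity),
      fun h K hK => hrib' K (h K hK)⟩⟩
  · -- one isotopy class
    have hex : ∃ m, HasBirths F m := by
      obtain ⟨G, h1, h2, h3, -, -⟩ := lower F hF
      exact ⟨_, G, h1, h2, h3, rfl⟩
    refine ⟨Nat.find hex, ⟨Nat.find_spec hex, fun m hm => Nat.find_min' hex hm⟩, ?_, ?_⟩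
    · rintro _ ⟨G, hFG, rfl⟩
      obtain ⟨G', h1, h2, h3, -, h5⟩ := lower G hFG.slice_right
      refine le_trans (ENNReal.ofReal_le_ofReal ?_) h5
      have h6 : Nat.find hex ≤ (births G').ncard :=
        Nat.find_min' hex ⟨G', hFG.trans h1, h2, h3, rfl⟩
      have h7 : (Nat.find hex : ℝ) ≤ ((births G').ncard : ℝ) := by exact_mod_cast h6
      gcongr
    · intro b hb
      obtain ⟨G, h1, h2, h3, h4⟩ := Nat.find_spec hex
      apply ENNReal.le_of_forall_pos_le_add
      intro ε hε _
      obtain ⟨G', h5, h6⟩ := upper_bound G h2 ε (by exact_mod_cast hε)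
      have h7 : b ≤ curvature G' := hb ⟨G', h1.trans h5, rfl⟩
      refine h7.trans (h6.le.trans (le_of_eq ?_))
      rw [h4, ENNReal.ofReal_add (by positivity) (by positivity)]
      simp
  · -- one knot
    have hex : ∃ m, KnotHasBirths K m := by
      obtain ⟨F, hF, rfl⟩ := hK
      obtain ⟨G, h1, h2, h3, -, -⟩ := lower F hF
      exact ⟨_, G, h2, h1.boundaryKnot_eq, h3, rfl⟩
    refine ⟨Nat.find hex, ⟨Nat.find_spec hex, fun m hm => Nat.find_min' hex hm⟩, ?_, ?_⟩
    · rintro _ ⟨G, ⟨hG, hGK⟩, rfl⟩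
      obtain ⟨G', h1, h2, h3, -, h5⟩ := lower G hG
      refine le_trans (ENNReal.ofReal_le_ofReal ?_) h5
      have h6 : Nat.find hex ≤ (births G').ncard :=
        Nat.find_min' hex ⟨G', h2, h1.boundaryKnot_eq.trans hGK, h3, rfl⟩
      have h7 : (Nat.find hex : ℝ) ≤ ((births G').ncard : ℝ) := by exact_mod_cast h6
      gcongr
    · intro b hb
      obtain ⟨G, h2, h1, h3, h4⟩ := Nat.find_spec hex
      apply ENNReal.le_of_forall_pos_le_add
      intro ε hε _
      obtain ⟨G', h5, h6⟩ := upper_bound G h2 ε (by exact_mod_cast hε)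
      have h7 : b ≤ curvature G' := hb ⟨G', ⟨h5.slice_right, h5.boundaryKnot_eq.trans h1⟩, rfl⟩
      refine h7.trans (h6.le.trans (le_of_eq ?_))
      rw [h4, ENNReal.ofReal_add (by positivity) (by positivity)]
      simp

end Pool.Agent.Lib_MP_752436_fm.FaryMilnor
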