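import Pool.Agent.Lib_MP_752436_fm.Upper
import Pool.Agent.Lib_MP_752436_rc.Main

/-!
The infimum of the curvature over the isotopy class of a slice disc.
-/

open MeasureTheory Metric Set
open scoped ContDiff ENNReal Topology

namespace Pool.Agent.Lib_MP_752436_fm

open Pool.Agent.Lib_MP_752436_gt Pool.Agent.Lib_MP_752436_tp Pool.Agent.Lib_MP_752436_rb
  Pool.Agent.Lib_MP_752436_nb Pool.Agent.Lib_MP_752436_hg Pool.Agent.Lib_MP_752436_hk
  Pool.Agent.Lib_MP_752436_rc

/-- The lower bound, with the same shadow. -/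
theorem exists_births_mul_le_shadow {F : Plane → EuclideanSpace ℝ (Fin 4)} (hF : IsSliceDisc F) :
    ∃ G, DiscIsotopic F G ∧ MorseDisc G ∧ (births G).Finite ∧
      (∀ x, ∀ i, i ≠ 3 → G x i = F x i) ∧
      ((births G).ncard : ℝ≥0∞) * ENNReal.ofReal (Real.pi ^ 2 / 4) ≤ kap F := by
  by_cases htop : kap F = ⊤
  · obtain ⟨G, hG, hfin, -, hGi, hGs⟩ := willmore_births hF
    exact ⟨G, discIsotopic_of_line hGs hGi, hG, hfin, hGi, by rw [htop]; exact le_top⟩
  have hpi := Real.pi_pos
  set r : ℝ := (kap F).toReal with hr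
  have hr0 : 0 ≤ r := ENNReal.toReal_nonneg
  have hkr : kap F = ENNReal.ofReal r := (ENNReal.ofReal_toReal htop).symm
  set n : ℕ := ⌊r / (Real.pi ^ 2 / 4)⌋₊ with hn
  have hn1 : (n : ℝ) ≤ r / (Real.pi ^ 2 / 4) := Nat.floor_le (by positivity)
  have hn2 : r / (Real.pi ^ 2 / 4) < n + 1 := Nat.lt_floor_add_one _
  have hlt : kap F < ((n : ℝ≥0∞) + 1) * ENNReal.ofReal (Real.pi ^ 2 / 4) := by
    have h1 : ((n : ℝ≥0∞) + 1) = ENNReal.ofReal ((n : ℝ) + 1) := by
      rw [ENNReal.ofReal_add (by positivity) (by norm_num)]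
      simp
    rw [h1, ← ENNReal.ofReal_mul (by positivity), hkr, ENNReal.ofReal_lt_ofReal_iff (by positivity)]
    rwa [div_lt_iff₀ (by positivity)] at hn2
  obtain ⟨G, hG, hGn, hGF, hGs⟩ := exists_births_le hF n hlt
  have hfin : (births G).Finite := Set.finite_of_encard_le_coe hGn
  refine ⟨G, discIsotopic_of_line hGs hGF, hG, hfin, hGF, ?_⟩
  have hc : (births G).ncard ≤ n := by
    rw [← hfin.cast_ncard_eq] at hGn
    exact_mod_cast hGn
  have hc' : ((births G).ncard : ℝ) ≤ n := by exact_mod_cast hc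
  have h1 : ((births G).ncard : ℝ≥0∞) = ENNReal.ofReal ((births G).ncard : ℝ) := by simp
  rw [h1, ← ENNReal.ofReal_mul (by positivity), hkr]
  apply ENNReal.ofReal_le_ofReal
  rw [le_div_iff₀ (by positivity)] at hn1
  nlinarith

theorem fderiv_coord {n : ℕ} {f : Plane → EuclideanSpace ℝ (Fin n)} {x : Plane}
    (hf : DifferentiableAt ℝ f x) (i : Fin n) (u : Plane) :
    fderiv ℝ f x u i = fderiv ℝ (fun y => f y i) x u := by
  have h : fderiv ℝ (fun y => f y i) x =
      (EuclideanSpace.proj i : EuclideanSpace ℝ (Fin n) →L[ℝ] ℝ).comp (fderiv ℝ f x) :=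
    ((EuclideanSpace.proj i : EuclideanSpace ℝ (Fin n) →L[ℝ] ℝ).hasFDerivAt.comp x
      hf.hasFDerivAt).fderiv
  rw [h]
  rfl

theorem finite_births' {F : Plane → EuclideanSpace ℝ (Fin 4)} (hF : MorseDisc F) :
    (births F).Finite := finite_births hF (Pool.Agent.Lib_MP_752436_hi.finite_crit_of_morse hF)

/-- The upper bound. -/
theorem exists_kap_le {F : Plane → EuclideanSpace ℝ (Fin 4)} (hF : MorseDisc F) {ε : ℝ}
    (hε : 0 < ε) : ∃ G, DiscIsotopic F G ∧
      kap G ≤ ((births F).ncard : ℝ≥0∞) * ENNReal.ofReal (Real.pi ^ 2 / 4) + ENNReal.ofReal ε := by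
  obtain ⟨g, hg, hFg, him⟩ := exists_immersed_isotopic hF
  set F' : Plane → EuclideanSpace ℝ (Fin 4) := lift4 g (height F) with hF'
  have hsl : IsSliceDisc F' := isSliceDisc_of_sdisc hg
  have hh : height F' = height F := by
    funext x
    rfl
  have hM : MorseDisc F' := by
    refine ⟨hsl, ?_, ?_⟩
    · rw [hh]; exact hF.neat
    · rw [hh]; exact hF.morse
  have hb : births F' = births F := by
    unfold births
    rw [hh]
  have hgd : ∀ x, DifferentiableAt ℝ g x := fun x => (hg.smf.differentiable (by simp)) x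
  have hFd : ∀ x, DifferentiableAt ℝ F' x := fun x => (hsl.smooth.differentiable (by simp)) x
  have himm : ∀ x ∈ closedBall (0 : Plane) 1, ∀ u,
      (∀ i, i ≠ 3 → fderiv ℝ F' x u i = 0) → u = 0 := by
    intro x hx u hu
    apply (injective_iff_map_eq_zero _).1 (him x hx)
    ext i
    rw [fderiv_coord (hgd x)]
    fin_cases i
    · have := hu 0 (by decide)
      rw [fderiv_coord (hFd x)] at this
      exact this
    · have := hu 1 (by decide)
      rw [fderiv_coord (hFd x)] at this
      exact this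
    · have := hu 2 (by decide)
      rw [fderiv_coord (hFd x)] at this
      exact this
  obtain ⟨C, hC, hle⟩ := kap_str_le hM himm (by rw [hb]; exact finite_births' hF)
  set c : ℝ := C / ε + 1 with hc
  have hcpos : 0 < c := by positivity
  refine ⟨fun y => str c (F' y), hFg.trans ?_, ?_⟩
  · have h1 : (fun y => str c (F' y)) = lift4 g (fun x => c * height F x) := by
      funext x
      ext i
      fin_cases i
      · exact str_ne c _ (by decide)
      · exact str_ne c _ (by decide)
      · exact str_ne c _ (by decide)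
      · exact str_three c _
    rw [h1]
    exact discIsotopic_of_height hg (sdisc_smul hg him hcpos) him
      fun x hx y hy hxy h => mul_lt_mul_of_pos_left h hcpos
  · refine (hle c hcpos).trans ?_
    rw [hb]
    gcongr
    rw [div_le_iff₀ hcpos, hc]
    have : ε * (C / ε + 1) = C + ε := by field_simp
    rw [this]
    linarith

end Pool.Agent.Lib_MP_752436_fm
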