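import Pool.Agent.Lib_MP_752436_fm.Upper
import Pool.Agent.Lib_MP_752436_fm.Count

/-!
The limit of the curvature when the height is stretched.
-/

open MeasureTheory Metric Set Filter
open scoped ContDiff ENNReal NNReal Topology

namespace Pool.Agent.Lib_MP_752436_fm

open Pool.Agent.Lib_MP_752436_gt Pool.Agent.Lib_MP_752436_mv Pool.Agent.Lib_MP_752436_dm

variable {F : EuclideanSpace ℝ (Fin 2) → EuclideanSpace ℝ (Fin 4)}

/-- A nondegenerate minimum persists. -/
theorem exists_min_near (hF : ContDiff ℝ ∞ F) {p : EuclideanSpace ℝ (Fin 2)} {r : ℝ} (hr : 0 < r)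
    (hcrit : ∀ u, (inner ℝ e3 (fderiv ℝ F p u) : ℝ) = 0)
    (hpd : ∀ y ∈ closedBall p r, ∀ w, ‖w - e3‖ < r → 0 < qf F 0 0 y w ∧ 0 < gq F y w) :
    ∃ δ > 0, ∀ w, ‖w - e3‖ < δ → ∃ x ∈ ball p r,
      IsLocalMin (fun y => (inner ℝ w (F y) : ℝ)) x := by
  have hlinc : ∀ w, Continuous (fun y => (inner ℝ w (F y) : ℝ)) := fun w =>
    (contDiff_lin hF w).continuous
  have he3 : ‖e3 - e3‖ < r := by simpa using hr
  -- the minimum over the closed ball of the vertical function is attained only at `p`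
  have huniq : ∀ q ∈ closedBall p r, (∀ u, (inner ℝ e3 (fderiv ℝ F q u) : ℝ) = 0) → q = p :=
    fun q hq hcq => crit_unique hF (p := p) (r := r) (w := e3) (fun y hy => hpd y hy e3 he3) hq
      (mem_closedBall_self hr.le) hcq hcrit
  -- strict convexity along segments
  have hstrict : ∀ y ∈ sphere p r, (inner ℝ e3 (F p) : ℝ) < inner ℝ e3 (F y) := by
    intro y hy
    set u : EuclideanSpace ℝ (Fin 2) := y - p with hu
    have hun : ‖u‖ = r := by rw [hu]; exact mem_sphere_iff_norm.1 hy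
    have hu0 : u ≠ 0 := by
      rw [← norm_pos_iff, hun]
      exact hr
    set φ : EuclideanSpace ℝ (Fin 2) → ℝ := fun y => (inner ℝ e3 (F y) : ℝ) with hφ
    have hφs : ContDiff ℝ ∞ φ := contDiff_lin hF e3
    have hline : ∀ s : ℝ, HasDerivAt (fun s : ℝ => p + s • u) u s := by
      intro s
      have h1 : HasDerivAt (fun s : ℝ => s • u) ((1 : ℝ) • u) s := (hasDerivAt_id s).smul_const u
      rw [one_smul] at h1
      exact h1.const_add p
    have hseg : ∀ s ∈ Icc (0 : ℝ) 1, p + s • u ∈ closedBall p r := by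
      intro s hs
      rw [mem_closedBall_iff_norm, add_sub_cancel_left, norm_smul, hun, Real.norm_eq_abs,
        abs_of_nonneg hs.1]
      nlinarith [hs.2]
    set g : ℝ → ℝ := fun s => φ (p + s • u) with hg
    set g' : ℝ → ℝ := fun s => fderiv ℝ φ (p + s • u) u with hg'
    have hgd : ∀ s, HasDerivAt g (g' s) s := by
      intro s
      have h1 : HasFDerivAt φ (fderiv ℝ φ (p + s • u)) (p + s • u) :=
        ((hφs.differentiable (by simp)) _).hasFDerivAt
      exact h1.comp_hasDerivAt s (hline s)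
    have hc1 : ContDiff ℝ ∞ (fderiv ℝ φ) := hφs.fderiv_right (by simp)
    have hg'd : ∀ s, HasDerivAt g' (fderiv ℝ (fderiv ℝ φ) (p + s • u) u u) s := by
      intro s
      have h1 : HasFDerivAt (fderiv ℝ φ) (fderiv ℝ (fderiv ℝ φ) (p + s • u)) (p + s • u) :=
        ((hc1.differentiable (by simp)) _).hasFDerivAt
      have h2 := h1.comp_hasDerivAt s (hline s)
      have h3 := h2.clm_apply (hasDerivAt_const s u)
      simpa using h3
    have hg'0 : g' 0 = 0 := by
      simp only [hg', zero_smul, add_zero]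
      rw [hφ, lin_fderiv_apply hF]
      exact hcrit u
    have hg'mono : StrictMonoOn g' (Icc (0 : ℝ) 1) := by
      refine strictMonoOn_of_deriv_pos (convex_Icc 0 1) ?_ ?_
      · exact (continuous_iff_continuousAt.2 fun s => (hg'd s).continuousAt).continuousOn
      · intro s hs
        rw [interior_Icc] at hs
        rw [(hg'd s).deriv, hφ, kl_fderiv_two hF]
        have h4 := hpd _ (hseg s ⟨hs.1.le, hs.2.le⟩) e3 he3
        exact posDef_of_coeff hF h4.1 h4.2 u hu0
    have hgmono : StrictMonoOn g (Icc (0 : ℝ) 1) := by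
      refine strictMonoOn_of_deriv_pos (convex_Icc 0 1) ?_ ?_
      · exact (continuous_iff_continuousAt.2 fun s => (hgd s).continuousAt).continuousOn
      · intro s hs
        rw [interior_Icc] at hs
        rw [(hgd s).deriv, ← hg'0]
        exact hg'mono (left_mem_Icc.2 zero_le_one) ⟨hs.1.le, hs.2.le⟩ hs.1
    have h01 := hgmono (left_mem_Icc.2 zero_le_one) (right_mem_Icc.2 zero_le_one) one_pos
    simp only [hg, zero_smul, add_zero, one_smul, hu, add_sub_cancel] at h01
    exact h01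
  have hsphere : IsCompact (sphere p r) := isCompact_sphere _ _
  obtain ⟨δ, hδ, hδb⟩ : ∃ δ > 0, ∀ w, ‖w - e3‖ < δ → ∀ y ∈ sphere p r,
      (inner ℝ w (F p) : ℝ) < inner ℝ w (F y) := by
    have hopen : IsOpen {q : EuclideanSpace ℝ (Fin 2) × EuclideanSpace ℝ (Fin 4) |
        (inner ℝ q.2 (F p) : ℝ) < inner ℝ q.2 (F q.1)} :=
      isOpen_lt (continuous_snd.inner continuous_const)
        (continuous_snd.inner (hF.continuous.comp continuous_fst))
    obtain ⟨U, V, -, hV, hKU, hV3, hUV⟩ := generalized_tube_lemma hsphere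
      (isCompact_singleton (x := e3)) hopen (by
        rintro ⟨x, w⟩ ⟨hx, hw⟩
        rw [mem_singleton_iff] at hw
        subst hw
        exact hstrict x hx)
    obtain ⟨δ, hδ, hsub⟩ := Metric.isOpen_iff.1 hV e3 (hV3 (mem_singleton _))
    exact ⟨δ, hδ, fun w hw y hy => hUV (mk_mem_prod (hKU hy) (hsub (mem_ball_iff_norm.2 hw)))⟩
  refine ⟨δ, hδ, fun w hw => ?_⟩
  obtain ⟨x, hx, hmin⟩ := (isCompact_closedBall p r).exists_isMinOn
    (nonempty_closedBall.2 hr.le) (hlinc w).continuousOn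
  have hxb : x ∈ ball p r := by
    rcases (mem_closedBall.1 hx).lt_or_eq with h | h
    · exact mem_ball.2 h
    · exfalso
      have h1 := hδb w hw x (mem_sphere.2 h)
      have h2 : (inner ℝ w (F x) : ℝ) ≤ inner ℝ w (F p) := hmin (mem_closedBall_self hr.le)
      exact absurd h1 (not_lt.2 h2)
  refine ⟨x, hxb, ?_⟩
  filter_upwards [isOpen_ball.mem_nhds hxb] with y hy
  exact hmin (ball_subset_closedBall hy)

/-- The scaling of positive vectors. -/
theorem posAt_of_scaled (hF : ContDiff ℝ ∞ F) {c : ℝ} (hc : 0 < c) {x : EuclideanSpace ℝ (Fin 2)}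
    {v : EuclideanSpace ℝ (Fin 4)} (hv : 0 < v 3) (hn : ‖v‖ < 1)
    (hcrit : ∀ u, (inner ℝ ((c * v 3)⁻¹ • str c v) (fderiv ℝ F x u) : ℝ) = 0)
    (h0 : 0 < qf F 0 0 x ((c * v 3)⁻¹ • str c v))
    (h1 : 0 < gq F x ((c * v 3)⁻¹ • str c v)) : PosAt (fun y => str c (F y)) x v := by
  have hcv : 0 < (c * v 3)⁻¹ := inv_pos.2 (mul_pos hc hv)
  have hq : ∀ i j, qf F i j x ((c * v 3)⁻¹ • str c v) = (c * v 3)⁻¹ * qf F i j x (str c v) := by
    intro i j
    unfold qf
    rw [real_inner_smul_left]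
  have hgq : gq F x ((c * v 3)⁻¹ • str c v) = (c * v 3)⁻¹ ^ 2 * gq F x (str c v) := by
    unfold gq
    rw [hq, hq, hq]
    ring
  rw [hq] at h0
  rw [hgq] at h1
  refine ⟨fun u => ?_, hn, ?_, ?_⟩
  · have h2 := hcrit u
    rw [real_inner_smul_left] at h2
    rw [fderiv_clm _ hF]
    show (inner ℝ v (str c (fderiv ℝ F x u)) : ℝ) = 0
    rw [inner_str]
    exact (mul_eq_zero.1 h2).resolve_left hcv.ne'
  · rw [qf_str c hF]
    exact (pos_iff_pos_of_mul_pos h0).1 hcv
  · rw [gq_str c hF]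
    exact (pos_iff_pos_of_mul_pos h1).1 (by positivity)

/-- Near vectors have a positive point near every birth of the stretched disc. -/
theorem exists_near_count (hF : MorseDisc F)
    (himm : ∀ x ∈ closedBall (0 : EuclideanSpace ℝ (Fin 2)) 1,
      ∀ u, (∀ i, i ≠ 3 → fderiv ℝ F x u i = 0) → u = 0) (hfin : (births F).Finite) :
    ∃ ρ > 0, ∀ c : ℝ, 0 < c → ∀ v ∈ near (c * ρ), ‖v‖ < 1 →
      (births F).encard ≤
        (posPts (fun y => str c (F y)) (closedBall 0 1) upper v).encard := by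
  classical
  have hs := hF.slice.smooth
  set P : Finset (EuclideanSpace ℝ (Fin 2)) := hfin.toFinset with hP
  have hmemP : ∀ p, p ∈ P ↔ p ∈ births F := fun p => by rw [hP, Finite.mem_toFinset]
  -- separation of the births
  obtain ⟨d, hd, hdd⟩ : ∃ d > 0, ∀ p ∈ P, ∀ q ∈ P, p ≠ q → d ≤ dist p q := by
    rcases P.offDiag.eq_empty_or_nonempty with he | hne
    · refine ⟨1, one_pos, fun p hp q hq hpq => ?_⟩
      have : (p, q) ∈ P.offDiag := Finset.mem_offDiag.2 ⟨hp, hq, hpq⟩
      rw [he] at this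
      exact absurd this (Finset.notMem_empty _)
    · obtain ⟨z, hz, hmin⟩ := P.offDiag.exists_min_image (fun z => dist z.1 z.2) hne
      have hz' := Finset.mem_offDiag.1 hz
      exact ⟨dist z.1 z.2, dist_pos.2 hz'.2.2, fun p hp q hq hpq =>
        hmin (p, q) (Finset.mem_offDiag.2 ⟨hp, hq, hpq⟩)⟩
  -- the data at one birth
  have hone : ∀ p : EuclideanSpace ℝ (Fin 2), ∃ δ : ℝ, p ∈ P → 0 < δ ∧ ∀ w, ‖w - e3‖ < δ →
      ∃ x ∈ ball p (d / 2) ∩ ball 0 1, (∀ u, (inner ℝ w (fderiv ℝ F x u) : ℝ) = 0) ∧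
        0 < qf F 0 0 x w ∧ 0 < gq F x w := by
    intro p
    by_cases hp : p ∈ P
    swap
    · exact ⟨0, fun h => absurd h hp⟩
    have hpb := (hmemP p).1 hp
    obtain ⟨r, hr, -, -, -, hpd⟩ := exists_data hF himm hpb
    obtain ⟨r', hr', hsub⟩ := Metric.isOpen_iff.1 (isOpen_ball (x := (0 : EuclideanSpace ℝ (Fin 2)))
      (ε := 1)) p hpb.1
    set r₀ : ℝ := min r (min (d / 2) r') / 2 with hr₀
    have hr₀p : 0 < r₀ := by positivity
    have hle1 : r₀ < r := lt_of_lt_of_le (half_lt_self (by positivity)) (min_le_left _ _)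
    have hle2 : r₀ < d / 2 := lt_of_lt_of_le (half_lt_self (by positivity))
      ((min_le_right _ _).trans (min_le_left _ _))
    have hle3 : r₀ < r' := lt_of_lt_of_le (half_lt_self (by positivity))
      ((min_le_right _ _).trans (min_le_right _ _))
    have hcrit : ∀ u, (inner ℝ e3 (fderiv ℝ F p u) : ℝ) = 0 := by
      intro u
      rw [← lin_fderiv_apply hs]
      have hlin : (fun y => (inner ℝ e3 (F y) : ℝ)) = fun y => F y 3 := by
        funext y
        exact inner_e3 _
      rw [hlin]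
      have h0 : fderiv ℝ (fun y => F y 3) p = 0 := IsLocalMin.fderiv_eq_zero hpb.2
      rw [h0]
      rfl
    obtain ⟨δ, hδ, hmin⟩ := exists_min_near hs hr₀p hcrit (fun y hy w hw =>
      hpd y (closedBall_subset_closedBall hle1.le hy) w (hw.trans hle1))
    refine ⟨min δ r, fun _ => ⟨by positivity, fun w hw => ?_⟩⟩
    obtain ⟨x, hx, hloc⟩ := hmin w (hw.trans_le (min_le_left _ _))
    have hbad := mem_badSet_singleton.1 (bad_of_localMin hs hloc)
    exact ⟨x, ⟨ball_subset_ball hle2.le hx, hsub (ball_subset_ball hle3.le hx)⟩, hbad.1,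
      hpd x (ball_subset_closedBall (ball_subset_ball hle1.le hx)) w
        (hw.trans_le (min_le_right _ _))⟩
  choose δ hδ using hone
  obtain ⟨ρ, hρ, hρδ⟩ : ∃ ρ > 0, ∀ p ∈ P, ρ ≤ δ p := by
    rcases P.eq_empty_or_nonempty with he | hne
    · exact ⟨1, one_pos, fun p hp => by rw [he] at hp; exact absurd hp (Finset.notMem_empty _)⟩
    · obtain ⟨q, hq, hmin⟩ := P.exists_min_image δ hne
      exact ⟨δ q, (hδ q hq).1, hmin⟩
  refine ⟨ρ, hρ, fun c hc v hv hn => ?_⟩
  set w : EuclideanSpace ℝ (Fin 4) := (c * v 3)⁻¹ • str c v with hw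
  have hwe : ‖w - e3‖ < ρ := near_close hc hρ hv
  have hx : ∀ p : EuclideanSpace ℝ (Fin 2), ∃ x : EuclideanSpace ℝ (Fin 2), p ∈ P →
      x ∈ ball p (d / 2) ∧ x ∈ posPts (fun y => str c (F y)) (closedBall 0 1) upper v := by
    intro p
    by_cases hp : p ∈ P
    · obtain ⟨x, ⟨h1, h2⟩, h3, h4, h5⟩ := (hδ p hp).2 w (hwe.trans_le (hρδ p hp))
      exact ⟨x, fun _ => ⟨h1, ball_subset_closedBall h2, posAt_of_scaled hs hc hv.1 hn h3 h4 h5,
        hv.1⟩⟩
    · exact ⟨0, fun h => absurd h hp⟩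
  choose x hx using hx
  have hinj : InjOn x (births F) := by
    intro p hp q hq hpq
    by_contra hne
    have h1 := hdd p ((hmemP p).2 hp) q ((hmemP q).2 hq) hne
    have h2 := mem_ball.1 (hx p ((hmemP p).2 hp)).1
    have h3 := mem_ball.1 (hx q ((hmemP q).2 hq)).1
    rw [← hpq] at h3
    have h4 := dist_triangle_left p q (x p)
    linarith
  rw [← hinj.encard_image]
  apply encard_le_encard
  rintro _ ⟨p, hp, rfl⟩
  exact (hx p ((hmemP p).2 hp)).2

theorem near_mono {s s' : ℝ} (hs : 0 ≤ s) (h : s ≤ s') : near s ⊆ near s' := by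
  rintro v ⟨h1, h2⟩
  refine ⟨h1, h2.trans_le ?_⟩
  have : s ^ 2 ≤ s' ^ 2 := by gcongr
  have h3 := sq_nonneg (v 3)
  nlinarith

/-- The curvature of the stretched discs tends to the number of births. -/
theorem tendsto_kap_str (hF : MorseDisc F)
    (himm : ∀ x ∈ closedBall (0 : EuclideanSpace ℝ (Fin 2)) 1,
      ∀ u, (∀ i, i ≠ 3 → fderiv ℝ F x u i = 0) → u = 0) (hfin : (births F).Finite) :
    Tendsto (fun c : ℝ => kap (fun y => str c (F y))) atTop
      (𝓝 (((births F).ncard : ℝ≥0∞) * ENNReal.ofReal (Real.pi ^ 2 / 4))) := by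
  have hs := hF.slice.smooth
  obtain ⟨C, hC, hup⟩ := kap_str_le hF himm hfin
  obtain ⟨ρ, hρ, hlow⟩ := exists_near_count hF himm hfin
  set B : Set (EuclideanSpace ℝ (Fin 4)) := ball 0 1 with hB
  have hBm : MeasurableSet B := measurableSet_ball
  -- the lower bound
  have hlower : ∀ c : ℝ, 0 < c → ((births F).ncard : ℝ≥0∞) * volume (B ∩ near (c * ρ)) ≤
      kap (fun y => str c (F y)) := by
    intro c hc
    have hform := (countFormula (contDiff_str c hs) measurableSet_closedBall measurableSet_upper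
      (O := closedBall (0 : EuclideanSpace ℝ (Fin 2)) 1) (fun x hx => gdet_str_pos hs
        (himm x hx))).2.2
    unfold kap
    rw [hform]
    calc ((births F).ncard : ℝ≥0∞) * volume (B ∩ near (c * ρ))
        = ∫⁻ _ in B ∩ near (c * ρ), ((births F).ncard : ℝ≥0∞) := by rw [setLIntegral_const]
      _ ≤ ∫⁻ v in B ∩ near (c * ρ), (((posPts (fun y => str c (F y)) (closedBall 0 1)
            upper v).encard : ℕ∞) : ℝ≥0∞) := by
          refine setLIntegral_mono' (hBm.inter (measurableSet_near _)) fun v hv => ?_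
          have h1 := hlow c hc v hv.2 (by simpa [hB] using hv.1)
          rw [← hfin.cast_ncard_eq] at h1
          exact_mod_cast h1
      _ ≤ _ := setLIntegral_le_lintegral _ _
  have hlim : Tendsto (fun c : ℝ => volume (B ∩ near (max c 0 * ρ))) atTop
      (𝓝 (ENNReal.ofReal (Real.pi ^ 2 / 4))) := by
    have hmono : Monotone (fun c : ℝ => B ∩ near (max c 0 * ρ)) := by
      intro c c' hcc
      refine inter_subset_inter_right _ (near_mono (by positivity) ?_)
      exact mul_le_mul_of_nonneg_right (max_le_max hcc le_rfl) hρ.le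
    have h1 := tendsto_measure_iUnion_atTop (μ := (volume : Measure (EuclideanSpace ℝ (Fin 4))))
      hmono
    have h2 : (⋃ c : ℝ, B ∩ near (max c 0 * ρ)) = B ∩ {v | 0 < v 3} := by
      ext v
      simp only [mem_iUnion, mem_inter_iff]
      constructor
      · rintro ⟨c, h3, h4⟩
        exact ⟨h3, h4.1⟩
      · rintro ⟨h3, h4⟩
        have h4' : 0 < v 3 := h4
        refine ⟨1 / (v 3 * ρ), h3, h4', ?_⟩
        have hpos : 0 < 1 / (v 3 * ρ) := by positivity
        rw [max_eq_left hpos.le]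
        have h5 : 1 / (v 3 * ρ) * ρ = 1 / v 3 := by field_simp
        rw [h5]
        have h6 : ‖v‖ < 1 := by simpa [hB] using h3
        have h7 : ‖v‖ ^ 2 < 1 := by
          have := norm_nonneg v
          nlinarith
        have h8 : (1 + (1 / v 3) ^ 2) * v 3 ^ 2 = v 3 ^ 2 + 1 := by field_simp
        rw [h8]
        nlinarith [sq_nonneg (v 3)]
    rw [h2, hB, volume_halfBall] at h1
    exact h1
  have hlim2 : Tendsto (fun c : ℝ => ((births F).ncard : ℝ≥0∞) *
      volume (B ∩ near (max c 0 * ρ))) atTop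
      (𝓝 (((births F).ncard : ℝ≥0∞) * ENNReal.ofReal (Real.pi ^ 2 / 4))) :=
    ENNReal.Tendsto.const_mul hlim (Or.inr (by simp))
  have hlim3 : Tendsto (fun c : ℝ => ((births F).ncard : ℝ≥0∞) * ENNReal.ofReal (Real.pi ^ 2 / 4) +
      ENNReal.ofReal (C / c)) atTop
      (𝓝 (((births F).ncard : ℝ≥0∞) * ENNReal.ofReal (Real.pi ^ 2 / 4))) := by
    have h1 : Tendsto (fun c : ℝ => C / c) atTop (𝓝 0) := tendsto_const_nhds.div_atTop tendsto_id
    have h2 := ENNReal.tendsto_ofReal h1
    rw [ENNReal.ofReal_zero] at h2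
    have h3 := h2.const_add (((births F).ncard : ℝ≥0∞) * ENNReal.ofReal (Real.pi ^ 2 / 4))
    rwa [add_zero] at h3
  refine tendsto_of_tendsto_of_tendsto_of_le_of_le' hlim2 hlim3 ?_ ?_
  · filter_upwards [eventually_gt_atTop (0 : ℝ)] with c hc
    rw [max_eq_left hc.le]
    exact hlower c hc
  · filter_upwards [eventually_gt_atTop (0 : ℝ)] with c hc
    exact hup c hc

end Pool.Agent.Lib_MP_752436_fm
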