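import Pool.Agent.Lib_MP_752436_fm.Dens
import Pool.Agent.Lib_MP_752436_gt.WBirths
import Pool.Agent.Lib_MP_752436_hk.Main

/-!
The lower bound: the curvature of a slice disc is at least `π²` times the number of births of some
isotopic Morse slice disc.
-/

open MeasureTheory Metric Set
open scoped ContDiff ENNReal

namespace Pool.Agent.Lib_MP_752436_fm

open Pool.Agent.Lib_MP_752436_gt Pool.Agent.Lib_MP_752436_hk

section area

variable {F : EuclideanSpace ℝ (Fin 2) → EuclideanSpace ℝ (Fin 4)}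
  {O : Set (EuclideanSpace ℝ (Fin 2))} {T : Set (EuclideanSpace ℝ (Fin 4))}

/-- The area inequality on a subset of the piece of a coordinate permutation. -/
theorem posSet_le_perm (hF : ContDiff ℝ ∞ F) (e : Equiv.Perm (Fin 4)) (hO : MeasurableSet O)
    (hT : MeasurableSet T) (hm : O ⊆ permPiece F e) (hg : ∀ x ∈ O, 0 < gdet F x) :
    volume (posSet F O T) ≤ ∫⁻ x in O, dens F T x := by
  set R := LinearIsometryEquiv.piLpCongrLeft 2 ℝ ℝ e with hR
  have hT' : MeasurableSet (R.symm ⁻¹' T) := R.symm.continuous.measurable hT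
  have hTT : R ⁻¹' (R.symm ⁻¹' T) = T := by
    ext v
    simp
  have h1 := posSet_le_piece (contDiff_comp_isometry R hF) hO hT' (fun x hx => hm hx)
    (fun x hx => by rw [gdet_comp _ hF]; exact hg x hx)
  rw [volume_posSet_rot R hF, hTT] at h1
  refine h1.trans (le_of_eq (lintegral_congr fun x => ?_))
  rw [dens_rot R hF, hTT]

/-- The area equality on a subset of the piece of a coordinate permutation. -/
theorem posSet_eq_perm (hF : ContDiff ℝ ∞ F) (e : Equiv.Perm (Fin 4)) (hO : MeasurableSet O)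
    (hT : MeasurableSet T) (hm : O ⊆ permPiece F e) (hg : ∀ x ∈ O, 0 < gdet F x)
    (huniq : ∀ x ∈ O, ∀ y ∈ O, ∀ v ∈ T, PosAt F x v → PosAt F y v → x = y) :
    ∫⁻ x in O, dens F T x = volume (posSet F O T) := by
  set R := LinearIsometryEquiv.piLpCongrLeft 2 ℝ ℝ e with hR
  have hT' : MeasurableSet (R.symm ⁻¹' T) := R.symm.continuous.measurable hT
  have hTT : R ⁻¹' (R.symm ⁻¹' T) = T := by
    ext v
    simp
  have hpos : ∀ x v, PosAt (fun y => R (F y)) x v ↔ PosAt F x (R.symm v) := by
    intro x v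
    have := posAt_rot R hF x (R.symm v)
    rwa [R.apply_symm_apply] at this
  have h1 := posSet_eq_piece (contDiff_comp_isometry R hF) hO hT' (fun x hx => hm hx)
    (fun x hx => by rw [gdet_comp _ hF]; exact hg x hx)
    (fun x hx y hy v hv h h' => huniq x hx y hy (R.symm v) hv ((hpos x v).1 h) ((hpos y v).1 h'))
  rw [volume_posSet_rot R hF, hTT] at h1
  rw [← h1]
  refine lintegral_congr fun x => ?_
  rw [dens_rot R hF, hTT]

/-- The area inequality on a measurable set of immersed points. -/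
theorem posSet_le (hF : ContDiff ℝ ∞ F) (hO : MeasurableSet O) (hT : MeasurableSet T)
    (hg : ∀ x ∈ O, 0 < gdet F x) :
    volume (posSet F O T) ≤ ∫⁻ x in O, dens F T x := by
  classical
  obtain ⟨en⟩ := Fintype.truncEquivFin (Equiv.Perm (Fin 4))
  set f : ℕ → Set (EuclideanSpace ℝ (Fin 2)) := fun n =>
    if h : n < Fintype.card (Equiv.Perm (Fin 4)) then O ∩ permPiece F (en.symm ⟨n, h⟩) else ∅
    with hf
  have hfm : ∀ n, MeasurableSet (f n) := by
    intro n
    simp only [hf]
    split_ifs with h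
    · exact hO.inter (measurableSet_permPiece hF _)
    · exact MeasurableSet.empty
  have hcover : O = ⋃ n, disjointed f n := by
    rw [iUnion_disjointed]
    apply Subset.antisymm
    · intro x hx
      obtain ⟨e, he⟩ := exists_perm_minor hF (hg x hx)
      rw [mem_iUnion]
      refine ⟨(en e).1, ?_⟩
      simp only [hf]
      rw [dif_pos (en e).2]
      refine ⟨hx, ?_⟩
      have : en.symm ⟨(en e).1, (en e).2⟩ = e := by simp
      rw [this]
      exact he
    · intro x hx
      rw [mem_iUnion] at hx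
      obtain ⟨n, hn⟩ := hx
      simp only [hf] at hn
      split_ifs at hn with h
      · exact hn.1
      · exact absurd hn (notMem_empty x)
  have hdm : ∀ n, MeasurableSet (disjointed f n) := fun n => MeasurableSet.disjointed hfm n
  have hpiece : ∀ n, volume (posSet F (disjointed f n) T) ≤
      ∫⁻ x in disjointed f n, dens F T x := by
    intro n
    have hsub : disjointed f n ⊆ f n := disjointed_subset f n
    by_cases h : n < Fintype.card (Equiv.Perm (Fin 4))
    · have hfn : f n = O ∩ permPiece F (en.symm ⟨n, h⟩) := by simp only [hf]; rw [dif_pos h]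
      rw [hfn] at hsub
      exact posSet_le_perm hF (en.symm ⟨n, h⟩) (hdm n) hT (fun x hx => (hsub hx).2)
        (fun x hx => hg x (hsub hx).1)
    · have hfn : f n = ∅ := by simp only [hf]; rw [dif_neg h]
      rw [hfn] at hsub
      have : disjointed f n = ∅ := subset_empty_iff.1 hsub
      rw [this]
      have h2 : posSet F ∅ T = ∅ := by
        ext v
        simp [posSet]
      simp [h2]
  have hbad : posSet F O T ⊆ ⋃ n, posSet F (disjointed f n) T := by
    rintro v ⟨x, hx, hv⟩
    rw [hcover, mem_iUnion] at hx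
    obtain ⟨n, hn⟩ := hx
    rw [mem_iUnion]
    exact ⟨n, x, hn, hv⟩
  calc volume (posSet F O T)
      ≤ volume (⋃ n, posSet F (disjointed f n) T) := measure_mono hbad
    _ ≤ ∑' n, volume (posSet F (disjointed f n) T) := measure_iUnion_le _
    _ ≤ ∑' n, ∫⁻ x in disjointed f n, dens F T x := ENNReal.tsum_le_tsum hpiece
    _ = ∫⁻ x in ⋃ n, disjointed f n, dens F T x :=
        (lintegral_iUnion hdm (disjoint_disjointed f) _).symm
    _ = ∫⁻ x in O, dens F T x := by rw [← hcover]

end area

/-- A positive definite form in terms of its coefficients. -/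
theorem posDef_coeff {F : EuclideanSpace ℝ (Fin 2) → EuclideanSpace ℝ (Fin 4)}
    (hF : ContDiff ℝ ∞ F) {x : EuclideanSpace ℝ (Fin 2)} {v : EuclideanSpace ℝ (Fin 4)}
    (h : ∀ u, u ≠ 0 → 0 < (inner ℝ v (fderiv ℝ (fderiv ℝ F) x u u) : ℝ)) :
    0 < qf F 0 0 x v ∧ 0 < gq F x v := by
  have hexp : ∀ u : EuclideanSpace ℝ (Fin 2), (inner ℝ v (fderiv ℝ (fderiv ℝ F) x u u) : ℝ) =
      u 0 ^ 2 * qf F 0 0 x v + 2 * (u 0 * u 1) * qf F 0 1 x v + u 1 ^ 2 * qf F 1 1 x v := by
    intro u
    rw [fderiv2_expand, d2_symm hF 1 0]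
    simp only [inner_add_right, inner_smul_right, qf]
    ring
  have h0 : 0 < qf F 0 0 x v := by
    have := h !₂[1, 0] (fun he => by
      have := congrArg (fun z : EuclideanSpace ℝ (Fin 2) => z 0) he
      simp at this)
    rw [hexp] at this
    simpa using this
  refine ⟨h0, ?_⟩
  have := h !₂[- qf F 0 1 x v, qf F 0 0 x v] (fun he => by
      have := congrArg (fun z : EuclideanSpace ℝ (Fin 2) => z 1) he
      simp at this
      exact h0.ne' this)
  rw [hexp] at this
  simp at this
  have h2 : 0 < qf F 0 0 x v * gq F x v := by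
    unfold gq
    nlinarith
  exact (pos_iff_pos_of_mul_pos h2).1 h0

/-- The converse. -/
theorem posDef_of_coeff {F : EuclideanSpace ℝ (Fin 2) → EuclideanSpace ℝ (Fin 4)}
    (hF : ContDiff ℝ ∞ F) {x : EuclideanSpace ℝ (Fin 2)} {v : EuclideanSpace ℝ (Fin 4)}
    (h0 : 0 < qf F 0 0 x v) (h1 : 0 < gq F x v) :
    ∀ u, u ≠ 0 → 0 < (inner ℝ v (fderiv ℝ (fderiv ℝ F) x u u) : ℝ) := by
  intro u hu
  have hexp : (inner ℝ v (fderiv ℝ (fderiv ℝ F) x u u) : ℝ) =
      u 0 ^ 2 * qf F 0 0 x v + 2 * (u 0 * u 1) * qf F 0 1 x v + u 1 ^ 2 * qf F 1 1 x v := by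
    rw [fderiv2_expand, d2_symm hF 1 0]
    simp only [inner_add_right, inner_smul_right, qf]
    ring
  have key : qf F 0 0 x v * (inner ℝ v (fderiv ℝ (fderiv ℝ F) x u u) : ℝ) =
      (u 0 * qf F 0 0 x v + u 1 * qf F 0 1 x v) ^ 2 + u 1 ^ 2 * gq F x v := by
    rw [hexp]
    unfold gq
    ring
  have h2 : 0 < qf F 0 0 x v * (inner ℝ v (fderiv ℝ (fderiv ℝ F) x u u) : ℝ) := by
    rw [key]
    by_cases h3 : u 1 = 0
    · have h4 : u 0 ≠ 0 := by
        intro h4
        apply hu
        ext i
        fin_cases i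
        · exact h4
        · exact h3
      rw [h3]
      have : 0 < (u 0 * qf F 0 0 x v) ^ 2 := by positivity
      simpa using this
    · have : 0 < u 1 ^ 2 * gq F x v := by positivity
      positivity
  exact (pos_iff_pos_of_mul_pos h2).1 h0

/-- The upper half space. -/
def upper : Set (EuclideanSpace ℝ (Fin 4)) := {v | 0 < v 3}

theorem measurableSet_upper : MeasurableSet upper := by
  have h : Continuous fun v : EuclideanSpace ℝ (Fin 4) => v 3 := by fun_prop
  exact (isOpen_lt continuous_const h).measurableSet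

/-- The curvature on the closed disc. -/
noncomputable def kap (F : EuclideanSpace ℝ (Fin 2) → EuclideanSpace ℝ (Fin 4)) : ℝ≥0∞ :=
  ∫⁻ x in closedBall (0 : EuclideanSpace ℝ (Fin 2)) 1, dens F upper x

/-- A slice disc whose curvature is less than `(n + 1) π² / 4` is isotopic to a Morse slice disc with
at most `n` births. -/
theorem exists_births_le {F : EuclideanSpace ℝ (Fin 2) → EuclideanSpace ℝ (Fin 4)}
    (hF : IsSliceDisc F) (n : ℕ)
    (hlt : kap F < ((n : ℝ≥0∞) + 1) * ENNReal.ofReal (Real.pi ^ 2 / 4)) :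
    ∃ G, MorseDisc G ∧ (births G).encard ≤ n ∧ (∀ x, ∀ i, i ≠ 3 → G x i = F x i) ∧
      ∀ s ∈ Icc (0 : ℝ) 1, IsSliceDisc (fun x => (1 - s) • F x + s • G x) := by
  set K : Set (EuclideanSpace ℝ (Fin 2)) := closedBall 0 1 with hK
  have hKm : MeasurableSet K := measurableSet_closedBall
  have hg : ∀ x ∈ K, 0 < gdet F x := fun x hx => gdet_pos (hF.immersion x hx)
  set ρ : Measure (EuclideanSpace ℝ (Fin 2)) := (volume.restrict K).withDensity (dens F upper)
    with hρ
  have hρO : ∀ O, MeasurableSet O → O ⊆ K → ρ O = ∫⁻ x in O, dens F upper x := by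
    intro O hO hOK
    rw [hρ, withDensity_apply _ hO, Measure.restrict_restrict hO,
      inter_eq_self_of_subset_left hOK]
  set H : Set (EuclideanSpace ℝ (Fin 4)) := ball 0 1 ∩ {v | 0 < v 3} with hH
  have hle : ∀ O, MeasurableSet O → O ⊆ K →
      volume ({v | ∃ x ∈ O, v ∈ badSet F {x}} ∩ H) ≤ ρ O := by
    intro O hO hOK
    rw [hρO O hO hOK]
    have hsub : {v | ∃ x ∈ O, v ∈ badSet F {x}} ∩ H ⊆ posSet F O upper ∪ degSet F K := by
      rintro v ⟨⟨x, hx, hbad⟩, hv1, hv3⟩
      by_cases hd : v ∈ degSet F K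
      · exact Or.inr hd
      · left
        have hp := pos_def_of_psd hF.smooth (O := K) (hOK hx) hbad hd
        obtain ⟨y, hy, h1, h2⟩ := hbad
        rw [mem_singleton_iff] at hy
        subst hy
        exact ⟨y, hx, ⟨h1, by simpa using hv1, posDef_coeff hF.smooth hp⟩, hv3⟩
    calc volume ({v | ∃ x ∈ O, v ∈ badSet F {x}} ∩ H)
        ≤ volume (posSet F O upper ∪ degSet F K) := measure_mono hsub
      _ ≤ volume (posSet F O upper) + volume (degSet F K) := measure_union_le _ _
      _ = volume (posSet F O upper) := by rw [volume_degSet hF.smooth hg, add_zero]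
      _ ≤ _ := posSet_le hF.smooth hO measurableSet_upper (fun x hx => hg x (hOK hx))
  have hρK : ρ K = kap F := hρO K hKm subset_rfl
  have hlt' : ρ K < ((n : ℝ≥0∞) + 1) * volume H := by
    rw [hρK, hH, volume_halfBall]
    exact hlt
  set E : Set (EuclideanSpace ℝ (Fin 4)) := degSet F K ∪
    (badSet F (sphere (0 : EuclideanSpace ℝ (Fin 2)) 1) ∩ ball 0 1) with hE
  have hE0 : volume E = 0 := by
    rw [hE]
    refine measure_union_null (volume_degSet hF.smooth hg) ?_
    have h1 := badSet_le hF.smooth (O := sphere (0 : EuclideanSpace ℝ (Fin 2)) 1)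
      isClosed_sphere.measurableSet (fun x hx => hg x (sphere_subset_closedBall hx))
    have h2 : volume (sphere (0 : EuclideanSpace ℝ (Fin 2)) 1) = 0 :=
      Measure.addHaar_sphere _ _ _
    rw [setLIntegral_measure_zero _ _ h2] at h1
    exact le_antisymm h1 zero_le
  obtain ⟨v, hvH, hvE, hfew⟩ := exists_few (volume : Measure (EuclideanSpace ℝ (Fin 4))) K hKm
    (fun x v => v ∈ badSet F {x}) ρ H E hE0 n hle hlt'
  have hv3 : 0 < v 3 := hvH.2
  exact births_of_direction hF hv3.le hfew (by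
    intro x hx hbad
    refine ⟨?_, pos_def_of_psd hF.smooth (O := K) hx hbad (fun h => hvE (Or.inl h))⟩
    rcases ball_or_sphere hx with h | h
    · exact h
    · exfalso
      apply hvE
      right
      obtain ⟨y, hy, h1, h2⟩ := hbad
      rw [mem_singleton_iff] at hy
      subst hy
      exact ⟨⟨y, h, h1, h2⟩, hvH.1⟩)

/-- Every slice disc is isotopic to a Morse slice disc whose number of births is at most the
curvature divided by `π² / 4`. -/
theorem exists_births_mul_le {F : EuclideanSpace ℝ (Fin 2) → EuclideanSpace ℝ (Fin 4)}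
    (hF : IsSliceDisc F) :
    ∃ G, DiscIsotopic F G ∧ MorseDisc G ∧ (births G).Finite ∧
      ((births G).ncard : ℝ≥0∞) * ENNReal.ofReal (Real.pi ^ 2 / 4) ≤ kap F := by
  by_cases htop : kap F = ⊤
  · obtain ⟨G, hG, hFG⟩ := exists_morse_isotopic hF
    exact ⟨G, hFG, hG, finite_births hG (Pool.Agent.Lib_MP_752436_hi.finite_crit_of_morse hG), by
      rw [htop]; exact le_top⟩
  have hpi := Real.pi_pos
  set r : ℝ := (kap F).toReal with hr
  have hr0 : 0 ≤ r := ENNReal.toReal_nonneg
  have hkr : kap F = ENNReal.ofReal r := (ENNReal.ofReal_toReal htop).symm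
  set n : ℕ := ⌊r / (Real.pi ^ 2 / 4)⌋₊ with hn
  have hn1 : (n : ℝ) ≤ r / (Real.pi ^ 2 / 4) := Nat.floor_le (by positivity)
  have hn2 : r / (Real.pi ^ 2 / 4) < n + 1 := Nat.lt_floor_add_one _
  have hlt : kap F < ((n : ℝ≥0∞) + 1) * ENNReal.ofReal (Real.pi ^ 2 / 4) := by
    have h1 : ((n : ℝ≥0∞) + 1) = ENNReal.ofReal ((n : ℝ) + 1) := by
      rw [ENNReal.ofReal_add (by positivity) (by norm_num)]
      simp
    rw [h1, ← ENNReal.ofReal_mul (by positivity), hkr, ENNReal.ofReal_lt_ofReal_iff (by positivity)]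
    rwa [div_lt_iff₀ (by positivity)] at hn2
  obtain ⟨G, hG, hGn, hGF, hGs⟩ := exists_births_le hF n hlt
  have hfin : (births G).Finite := Set.finite_of_encard_le_coe hGn
  refine ⟨G, discIsotopic_of_line hGs hGF, hG, hfin, ?_⟩
  have hc : (births G).ncard ≤ n := by
    rw [← hfin.cast_ncard_eq] at hGn
    exact_mod_cast hGn
  have hc' : ((births G).ncard : ℝ) ≤ n := by exact_mod_cast hc
  have h1 : ((births G).ncard : ℝ≥0∞) = ENNReal.ofReal ((births G).ncard : ℝ) := by simp
  rw [h1, ← ENNReal.ofReal_mul (by positivity), hkr]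
  apply ENNReal.ofReal_le_ofReal
  rw [le_div_iff₀ (by positivity)] at hn1
  nlinarith

end Pool.Agent.Lib_MP_752436_fm
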