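import Pool.Agent.Lib_MP_752436_fm.Scale
import Pool.Agent.Lib_MP_752436_dm.Stab

/-!
Directions near the vertical: the positive normal vectors of a stretched Morse disc which are near
the vertical direction occur only near the births, at one point near each birth.
-/

open MeasureTheory Metric Set
open scoped ContDiff ENNReal Topology

namespace Pool.Agent.Lib_MP_752436_fm

open Pool.Agent.Lib_MP_752436_gt Pool.Agent.Lib_MP_752436_mv Pool.Agent.Lib_MP_752436_dm

variable {F : EuclideanSpace ℝ (Fin 2) → EuclideanSpace ℝ (Fin 4)}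

theorem exists_no_bad (hF : ContDiff ℝ ∞ F) {K : Set (EuclideanSpace ℝ (Fin 2))}
    (hK : IsCompact K) (h : ∀ x ∈ K, e3 ∉ badSet F {x}) :
    ∃ ρ > 0, ∀ w, ‖w - e3‖ < ρ → ∀ y ∈ K, w ∉ badSet F {y} := by
  have h1s : ContDiff ℝ ∞ (fderiv ℝ F) := hF.fderiv_right (by simp)
  have h2s : ContDiff ℝ ∞ (fderiv ℝ (fderiv ℝ F)) := h1s.fderiv_right (by simp)
  have hc1 : Continuous (fun p : EuclideanSpace ℝ (Fin 2) × EuclideanSpace ℝ (Fin 4) =>
    fderiv ℝ F p.1) := h1s.continuous.comp continuous_fst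
  have hc2 : Continuous (fun p : EuclideanSpace ℝ (Fin 2) × EuclideanSpace ℝ (Fin 4) =>
    fderiv ℝ (fderiv ℝ F) p.1) := h2s.continuous.comp continuous_fst
  set B : Set (EuclideanSpace ℝ (Fin 2) × EuclideanSpace ℝ (Fin 4)) :=
    (⋂ u, {p | (inner ℝ p.2 (fderiv ℝ F p.1 u) : ℝ) = 0}) ∩
      ⋂ u, {p | 0 ≤ (inner ℝ p.2 (fderiv ℝ (fderiv ℝ F) p.1 u u) : ℝ)} with hB
  have hBc : IsClosed B := by
    refine IsClosed.inter (isClosed_iInter fun u => ?_) (isClosed_iInter fun u => ?_)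
    · exact isClosed_eq (continuous_snd.inner (hc1.clm_apply continuous_const)) continuous_const
    · exact isClosed_le continuous_const
        (continuous_snd.inner ((hc2.clm_apply continuous_const).clm_apply continuous_const))
  have hmem : ∀ p : EuclideanSpace ℝ (Fin 2) × EuclideanSpace ℝ (Fin 4),
      p ∈ B ↔ p.2 ∈ badSet F {p.1} := by
    intro p
    rw [mem_badSet_singleton, hB]
    simp
  obtain ⟨U, V, -, hV, hKU, hV3, hUV⟩ := generalized_tube_lemma hK
    (isCompact_singleton (x := e3)) hBc.isOpen_compl (by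
      rintro ⟨x, w⟩ ⟨hx, hw⟩ hcon
      rw [hmem] at hcon
      rw [mem_singleton_iff] at hw
      subst hw
      exact h x hx hcon)
  obtain ⟨ρ, hρ, hsub⟩ := Metric.isOpen_iff.1 hV e3 (hV3 (mem_singleton _))
  refine ⟨ρ, hρ, fun w hw y hy hcon => ?_⟩
  have h1 : (y, w) ∈ Bᶜ := hUV ⟨hKU hy, hsub (mem_ball_iff_norm.2 hw)⟩
  exact h1 ((hmem (y, w)).2 hcon)

theorem continuous_qf (hF : ContDiff ℝ ∞ F) (i j : Fin 2) :
    Continuous (fun p : EuclideanSpace ℝ (Fin 2) × EuclideanSpace ℝ (Fin 4) =>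
      qf F i j p.1 p.2) :=
  continuous_snd.inner ((continuous_d2 hF i j).comp continuous_fst)

theorem continuous_gq (hF : ContDiff ℝ ∞ F) :
    Continuous (fun p : EuclideanSpace ℝ (Fin 2) × EuclideanSpace ℝ (Fin 4) =>
      gq F p.1 p.2) :=
  ((continuous_qf hF 0 0).mul (continuous_qf hF 1 1)).sub ((continuous_qf hF 0 1).pow 2)

theorem exists_posdef_near (hF : ContDiff ℝ ∞ F) {p : EuclideanSpace ℝ (Fin 2)}
    (h0 : 0 < qf F 0 0 p e3) (h1 : 0 < gq F p e3) :
    ∃ r > 0, ∀ y ∈ ball p r, ∀ w, ‖w - e3‖ < r → 0 < qf F 0 0 y w ∧ 0 < gq F y w := by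
  have hopen : IsOpen {q : EuclideanSpace ℝ (Fin 2) × EuclideanSpace ℝ (Fin 4) |
      0 < qf F 0 0 q.1 q.2 ∧ 0 < gq F q.1 q.2} :=
    (isOpen_lt continuous_const (continuous_qf hF 0 0)).inter
      (isOpen_lt continuous_const (continuous_gq hF))
  obtain ⟨r, hr, hsub⟩ := Metric.isOpen_iff.1 hopen (p, e3) ⟨h0, h1⟩
  refine ⟨r, hr, fun y hy w hw => ?_⟩
  have h2 : (y, w) ∈ ball (p, e3) r := by
    rw [← ball_prod_same]
    exact ⟨hy, mem_ball_iff_norm.2 hw⟩
  exact hsub h2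

/-- At most one critical point near a birth. -/
theorem crit_unique (hF : ContDiff ℝ ∞ F) {p : EuclideanSpace ℝ (Fin 2)} {r : ℝ}
    {w : EuclideanSpace ℝ (Fin 4)}
    (h : ∀ y ∈ closedBall p r, 0 < qf F 0 0 y w ∧ 0 < gq F y w) {x y : EuclideanSpace ℝ (Fin 2)}
    (hx : x ∈ closedBall p r) (hy : y ∈ closedBall p r)
    (hcx : ∀ u, (inner ℝ w (fderiv ℝ F x u) : ℝ) = 0)
    (hcy : ∀ u, (inner ℝ w (fderiv ℝ F y u) : ℝ) = 0) : x = y := by
  have hz : ∀ z, (∀ u, (inner ℝ w (fderiv ℝ F z u) : ℝ) = 0) →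
      fderiv ℝ (fun y => (inner ℝ w (F y) : ℝ)) z = 0 := by
    intro z hz
    ext u
    rw [lin_fderiv_apply hF, hz u]
    rfl
  refine unique_crit_convex (contDiff_lin hF w) (p := p) (r := r) ?_ hx hy (hz x hcx) (hz y hcy)
  intro z hz u hu
  rw [kl_fderiv_two hF]
  exact posDef_of_coeff hF (h z hz).1 (h z hz).2 u hu

/-- At a point where the shadow is immersed some coordinate permutation which fixes the last
coordinate has nonzero minor. -/
theorem minor_perm (e : Equiv.Perm (Fin 4)) (x : EuclideanSpace ℝ (Fin 2)) :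
    minor (fun y => LinearIsometryEquiv.piLpCongrLeft 2 ℝ ℝ e (F y)) x =
      d1 F 0 x (e.symm 0) * d1 F 1 x (e.symm 1) - d1 F 0 x (e.symm 1) * d1 F 1 x (e.symm 0) := by
  unfold minor
  rw [d1_comp_perm, d1_comp_perm, d1_comp_perm, d1_comp_perm]

theorem exists_perm_fix : ∀ i j : Fin 4, i ≠ j → i ≠ 3 → j ≠ 3 →
    ∃ e : Equiv.Perm (Fin 4), e.symm 3 = 3 ∧ e.symm 0 = i ∧ e.symm 1 = j := by
  decide

theorem exists_perm_shadow {x : EuclideanSpace ℝ (Fin 2)}
    (h : ∀ u, (∀ i, i ≠ 3 → fderiv ℝ F x u i = 0) → u = 0) :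
    ∃ e : Equiv.Perm (Fin 4), e.symm 3 = 3 ∧
      minor (fun y => LinearIsometryEquiv.piLpCongrLeft 2 ℝ ℝ e (F y)) x ≠ 0 := by
  by_contra hcon
  push Not at hcon
  have key : ∀ i j : Fin 4, i ≠ 3 → j ≠ 3 →
      d1 F 0 x i * d1 F 1 x j - d1 F 0 x j * d1 F 1 x i = 0 := by
    intro i j hi hj
    by_cases hij : i = j
    · rw [hij]; ring
    · obtain ⟨e, h3, h0, h1⟩ := exists_perm_fix i j hij hi hj
      have := hcon e h3
      rw [minor_perm, h0, h1] at this
      exact this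
  by_cases ha : ∃ k : Fin 4, k ≠ 3 ∧ d1 F 0 x k ≠ 0
  · obtain ⟨k, hk, hne⟩ := ha
    have h1 := h !₂[d1 F 1 x k, - d1 F 0 x k] (fun i hi => by
      rw [normal_expand]
      simp only [PiLp.add_apply, PiLp.smul_apply, smul_eq_mul]
      have := key i k hi hk
      simp
      linarith)
    have h2 := congrArg (fun z : EuclideanSpace ℝ (Fin 2) => z 1) h1
    simp at h2
    exact hne h2
  · push Not at ha
    have h1 := h !₂[1, 0] (fun i hi => by
      rw [normal_expand]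
      simp only [PiLp.add_apply, PiLp.smul_apply, smul_eq_mul]
      simp [ha i hi])
    have h2 := congrArg (fun z : EuclideanSpace ℝ (Fin 2) => z 0) h1
    simp at h2

theorem minor_perm_str (c : ℝ) (hF : ContDiff ℝ ∞ F) {e : Equiv.Perm (Fin 4)}
    (he : e.symm 3 = 3) (x : EuclideanSpace ℝ (Fin 2)) :
    minor (fun y => LinearIsometryEquiv.piLpCongrLeft 2 ℝ ℝ e (str c (F y))) x =
      minor (fun y => LinearIsometryEquiv.piLpCongrLeft 2 ℝ ℝ e (F y)) x := by
  have h0 : e.symm 0 ≠ 3 := fun h => by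
    have := e.symm.injective (h.trans he.symm)
    exact absurd this (by decide)
  have h1 : e.symm 1 ≠ 3 := fun h => by
    have := e.symm.injective (h.trans he.symm)
    exact absurd this (by decide)
  have hd : ∀ (i : Fin 2) (j : Fin 4), j ≠ 3 → d1 (fun y => str c (F y)) i x j = d1 F i x j := by
    intro i j hj
    unfold d1
    rw [fderiv_clm _ hF]
    exact str_ne c _ hj
  rw [minor_perm, minor_perm, hd 0 _ h0, hd 1 _ h1, hd 0 _ h1, hd 1 _ h0]

/-- The vertical direction on a Morse disc. -/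
theorem inner_e3 (w : EuclideanSpace ℝ (Fin 4)) : (inner ℝ e3 w : ℝ) = w 3 := by
  rw [e3, EuclideanSpace.inner_single_left]
  simp

theorem births_e3 (hF : MorseDisc F) {p : EuclideanSpace ℝ (Fin 2)} (hp : p ∈ births F) :
    0 < qf F 0 0 p e3 ∧ 0 < gq F p e3 := by
  have hs := hF.slice.smooth
  have hlin : (fun y => (inner ℝ e3 (F y) : ℝ)) = fun y => F y 3 := by
    funext y
    exact inner_e3 _
  have h0 : fderiv ℝ (fun y => F y 3) p = 0 := IsLocalMin.fderiv_eq_zero hp.2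
  refine posDef_coeff hs (fun u hu => ?_)
  rw [← kl_fderiv_two hs, hlin]
  exact crit_posDef (contDiff_coord' hF.slice 3) (crit_nondeg hF hp.1 h0)
    (fun u => noTrap_second (contDiff_coord' hF.slice 3) hp.2 u) u hu

theorem bad_e3 (hF : MorseDisc F) {x : EuclideanSpace ℝ (Fin 2)}
    (hx : x ∈ closedBall (0 : EuclideanSpace ℝ (Fin 2)) 1) (hbad : e3 ∈ badSet F {x}) :
    x ∈ births F := by
  have hs := hF.slice.smooth
  have hlin : (fun y => (inner ℝ e3 (F y) : ℝ)) = fun y => F y 3 := by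
    funext y
    exact inner_e3 _
  rw [mem_badSet_singleton] at hbad
  have h0 : fderiv ℝ (fun y => F y 3) x = 0 := by
    rw [← hlin]
    ext u
    rw [lin_fderiv_apply hs, hbad.1 u]
    rfl
  have hxb := crit_mem_ball hF hx h0
  refine ⟨hxb, ?_⟩
  refine crit_localMin (contDiff_coord' hF.slice 3) h0 (crit_nondeg hF hxb h0) (fun u => ?_)
  rw [← hlin, kl_fderiv_two hs]
  exact hbad.2 u

end Pool.Agent.Lib_MP_752436_fm
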