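import Pool.Agent.Lib_MP_752436_fm.Lower

/-!
Stretching of the height: normal vectors, second derivatives and the curvature density.
-/

open MeasureTheory Metric Set
open scoped ContDiff ENNReal Topology

namespace Pool.Agent.Lib_MP_752436_fm

open Pool.Agent.Lib_MP_752436_gt

section clm

variable (L : EuclideanSpace ℝ (Fin 4) →L[ℝ] EuclideanSpace ℝ (Fin 4))
  {F : EuclideanSpace ℝ (Fin 2) → EuclideanSpace ℝ (Fin 4)}

theorem fderiv_clm (hF : ContDiff ℝ ∞ F) (x : EuclideanSpace ℝ (Fin 2)) :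
    fderiv ℝ (fun y => L (F y)) x = L.comp (fderiv ℝ F x) := by
  have h1 : HasFDerivAt F (fderiv ℝ F x) x := (hF.differentiable (by simp) x).hasFDerivAt
  exact (L.hasFDerivAt.comp x h1).fderiv

theorem fderiv2_clm (hF : ContDiff ℝ ∞ F) (x u w : EuclideanSpace ℝ (Fin 2)) :
    fderiv ℝ (fderiv ℝ (fun y => L (F y))) x u w = L (fderiv ℝ (fderiv ℝ F) x u w) := by
  have e : fderiv ℝ (fun y => L (F y)) = fun y => L.comp (fderiv ℝ F y) := by
    funext y; exact fderiv_clm L hF y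
  have h1 : HasFDerivAt (fderiv ℝ F) (fderiv ℝ (fderiv ℝ F) x) x :=
    (((hF.fderiv_right (m := ∞) (le_of_eq rfl)).differentiable (by simp)) x).hasFDerivAt
  rw [e]
  have h2 := (ContinuousLinearMap.compL ℝ (EuclideanSpace ℝ (Fin 2)) (EuclideanSpace ℝ (Fin 4))
    (EuclideanSpace ℝ (Fin 4)) L).hasFDerivAt (x := fderiv ℝ F x)
  have h3 := (h2.comp x h1).fderiv
  have e2 : (fun y => L.comp (fderiv ℝ F y)) =
      (ContinuousLinearMap.compL ℝ (EuclideanSpace ℝ (Fin 2))
        (EuclideanSpace ℝ (Fin 4)) (EuclideanSpace ℝ (Fin 4)) L) ∘ fderiv ℝ F := rfl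
  rw [e2, h3]
  rfl

end clm

/-- The stretching of the last coordinate. -/
noncomputable def str (c : ℝ) : EuclideanSpace ℝ (Fin 4) →L[ℝ] EuclideanSpace ℝ (Fin 4) :=
  ContinuousLinearMap.id ℝ _ + (c - 1) •
    (EuclideanSpace.proj (3 : Fin 4) : EuclideanSpace ℝ (Fin 4) →L[ℝ] ℝ).smulRight
      (EuclideanSpace.single 3 1)

theorem str_three (c : ℝ) (v : EuclideanSpace ℝ (Fin 4)) : str c v 3 = c * v 3 := by
  simp [str]
  ring

theorem str_ne (c : ℝ) (v : EuclideanSpace ℝ (Fin 4)) {i : Fin 4} (hi : i ≠ 3) :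
    str c v i = v i := by
  simp [str, hi]

theorem inner_str (c : ℝ) (v w : EuclideanSpace ℝ (Fin 4)) :
    (inner ℝ v (str c w) : ℝ) = inner ℝ (str c v) w := by
  rw [normal_inner4, normal_inner4, str_three, str_three]
  rw [str_ne c w (i := 0) (by decide), str_ne c w (i := 1) (by decide),
    str_ne c w (i := 2) (by decide), str_ne c v (i := 0) (by decide),
    str_ne c v (i := 1) (by decide), str_ne c v (i := 2) (by decide)]
  ring

theorem norm_sq_str (c : ℝ) (v : EuclideanSpace ℝ (Fin 4)) :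
    ‖str c v‖ ^ 2 = ‖v‖ ^ 2 + (c ^ 2 - 1) * v 3 ^ 2 := by
  rw [← real_inner_self_eq_norm_sq, ← real_inner_self_eq_norm_sq, normal_inner4, normal_inner4,
    str_three, str_ne c v (i := 0) (by decide), str_ne c v (i := 1) (by decide),
    str_ne c v (i := 2) (by decide)]
  ring

section strF

variable {F : EuclideanSpace ℝ (Fin 2) → EuclideanSpace ℝ (Fin 4)}

theorem contDiff_str (c : ℝ) (hF : ContDiff ℝ ∞ F) : ContDiff ℝ ∞ (fun y => str c (F y)) :=
  (str c).contDiff.comp hF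

theorem qf_str (c : ℝ) (hF : ContDiff ℝ ∞ F) (i j : Fin 2) (x : EuclideanSpace ℝ (Fin 2))
    (v : EuclideanSpace ℝ (Fin 4)) :
    qf (fun y => str c (F y)) i j x v = qf F i j x (str c v) := by
  unfold qf d2
  rw [fderiv2_clm _ hF, inner_str]

theorem gq_str (c : ℝ) (hF : ContDiff ℝ ∞ F) (x : EuclideanSpace ℝ (Fin 2))
    (v : EuclideanSpace ℝ (Fin 4)) : gq (fun y => str c (F y)) x v = gq F x (str c v) := by
  unfold gq
  rw [qf_str c hF, qf_str c hF, qf_str c hF]

/-- Positive normal vectors of the stretched disc. -/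
theorem posAt_str (c : ℝ) (hF : ContDiff ℝ ∞ F) {x : EuclideanSpace ℝ (Fin 2)}
    {v : EuclideanSpace ℝ (Fin 4)} (h : PosAt (fun y => str c (F y)) x v) :
    (∀ u, (inner ℝ (str c v) (fderiv ℝ F x u) : ℝ) = 0) ∧ 0 < qf F 0 0 x (str c v) ∧
      0 < gq F x (str c v) := by
  obtain ⟨h1, -, h2, h3⟩ := h
  rw [qf_str c hF] at h2
  rw [gq_str c hF] at h3
  refine ⟨fun u => ?_, h2, h3⟩
  have := h1 u
  rw [fderiv_clm _ hF] at this
  rw [← inner_str]
  exact this

end strF

/-- The vertical unit vector. -/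
noncomputable def e3 : EuclideanSpace ℝ (Fin 4) := EuclideanSpace.single 3 1

/-- The vectors near the vertical direction. -/
def near (s : ℝ) : Set (EuclideanSpace ℝ (Fin 4)) :=
  {v | 0 < v 3 ∧ ‖v‖ ^ 2 < (1 + s ^ 2) * v 3 ^ 2}

/-- The vectors far from the vertical direction. -/
def far (s : ℝ) : Set (EuclideanSpace ℝ (Fin 4)) :=
  {v | 0 < v 3 ∧ (1 + s ^ 2) * v 3 ^ 2 ≤ ‖v‖ ^ 2}

theorem upper_eq (s : ℝ) : upper = near s ∪ far s := by
  ext v
  simp only [upper, near, far, mem_union, mem_ofPred_eq]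
  constructor
  · intro h
    rcases lt_or_ge (‖v‖ ^ 2) ((1 + s ^ 2) * v 3 ^ 2) with h1 | h1
    · exact Or.inl ⟨h, h1⟩
    · exact Or.inr ⟨h, h1⟩
  · rintro (h | h)
    · exact h.1
    · exact h.1

theorem measurableSet_near (s : ℝ) : MeasurableSet (near s) := by
  have h : Continuous fun v : EuclideanSpace ℝ (Fin 4) => v 3 := by fun_prop
  exact ((isOpen_lt continuous_const h).inter
    (isOpen_lt (by fun_prop) (continuous_const.mul (h.pow 2)))).measurableSet

theorem measurableSet_far (s : ℝ) : MeasurableSet (far s) := by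
  have h : Continuous fun v : EuclideanSpace ℝ (Fin 4) => v 3 := by fun_prop
  exact (isOpen_lt continuous_const h).measurableSet.inter
    (isClosed_le (continuous_const.mul (h.pow 2)) (by fun_prop)).measurableSet

/-- A stretched near vector is close to the vertical direction. -/
theorem near_close {c ρ : ℝ} (hc : 0 < c) (hρ : 0 < ρ) {v : EuclideanSpace ℝ (Fin 4)}
    (hv : v ∈ near (c * ρ)) : ‖(c * v 3)⁻¹ • str c v - e3‖ < ρ := by
  obtain ⟨h3, hn⟩ := hv
  have hcv : 0 < c * v 3 := mul_pos hc h3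
  have h1 : ‖(c * v 3)⁻¹ • str c v - e3‖ ^ 2 = (‖v‖ ^ 2 - v 3 ^ 2) / (c * v 3) ^ 2 := by
    rw [← real_inner_self_eq_norm_sq, ← real_inner_self_eq_norm_sq, normal_inner4, normal_inner4]
    simp only [PiLp.sub_apply, PiLp.smul_apply, smul_eq_mul, str_three, e3,
      str_ne c v (i := 0) (by decide), str_ne c v (i := 1) (by decide),
      str_ne c v (i := 2) (by decide)]
    simp
    have h5 : (v 3)⁻¹ * c⁻¹ * (c * v 3) - 1 = 0 := by
      field_simp
      ring
    field_simp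
    ring
  have h2 : ‖(c * v 3)⁻¹ • str c v - e3‖ ^ 2 < ρ ^ 2 := by
    rw [h1, div_lt_iff₀ (by positivity)]
    nlinarith
  exact lt_of_pow_lt_pow_left₀ 2 hρ.le h2

end Pool.Agent.Lib_MP_752436_fm
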