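import Pool.Agent.Lib_MP_752436_fm.Far

/-!
The upper bound: stretching the height of a Morse slice disc with immersed shadow makes the curvature
as close to `π²` times the number of births as we like.
-/

open MeasureTheory Metric Set
open scoped ContDiff ENNReal Topology

namespace Pool.Agent.Lib_MP_752436_fm

open Pool.Agent.Lib_MP_752436_gt Pool.Agent.Lib_MP_752436_mv Pool.Agent.Lib_MP_752436_dm

variable {F : EuclideanSpace ℝ (Fin 2) → EuclideanSpace ℝ (Fin 4)}

theorem lintegral_biUnion_le (P : Finset (EuclideanSpace ℝ (Fin 2)))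
    (U : EuclideanSpace ℝ (Fin 2) → Set (EuclideanSpace ℝ (Fin 2)))
    (f : EuclideanSpace ℝ (Fin 2) → ℝ≥0∞) :
    ∫⁻ x in ⋃ p ∈ P, U p, f x ≤ ∑ p ∈ P, ∫⁻ x in U p, f x := by
  classical
  induction P using Finset.induction_on with
  | empty => simp
  | insert a s ha ih =>
    rw [Finset.sum_insert ha, Finset.set_biUnion_insert]
    exact (lintegral_union_le _ _ _).trans (by gcongr)

theorem gdet_str_pos (hF : ContDiff ℝ ∞ F) {c : ℝ} {x : EuclideanSpace ℝ (Fin 2)}
    (himm : ∀ u, (∀ i, i ≠ 3 → fderiv ℝ F x u i = 0) → u = 0) :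
    0 < gdet (fun y => str c (F y)) x := by
  apply gdet_pos
  rw [injective_iff_map_eq_zero]
  intro u hu
  rw [fderiv_clm _ hF] at hu
  refine himm u fun i hi => ?_
  have h1 : str c (fderiv ℝ F x u) = 0 := hu
  have h2 := congrArg (fun z : EuclideanSpace ℝ (Fin 4) => z i) h1
  simp only [str_ne c _ hi] at h2
  exact h2

/-- The data near the births. -/
theorem exists_data (hF : MorseDisc F) (himm : ∀ x ∈ closedBall (0 : EuclideanSpace ℝ (Fin 2)) 1,
      ∀ u, (∀ i, i ≠ 3 → fderiv ℝ F x u i = 0) → u = 0)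
    {p : EuclideanSpace ℝ (Fin 2)} (hp : p ∈ births F) :
    ∃ r > 0, ∃ e : Equiv.Perm (Fin 4), e.symm 3 = 3 ∧
      (∀ y ∈ closedBall p r,
        minor (fun y => LinearIsometryEquiv.piLpCongrLeft 2 ℝ ℝ e (F y)) y ≠ 0) ∧
      ∀ y ∈ closedBall p r, ∀ w, ‖w - e3‖ < r → 0 < qf F 0 0 y w ∧ 0 < gq F y w := by
  have hs := hF.slice.smooth
  obtain ⟨h0, h1⟩ := births_e3 hF hp
  obtain ⟨r1, hr1, hA⟩ := exists_posdef_near hs h0 h1
  obtain ⟨e, he, hne⟩ := exists_perm_shadow (F := F) (himm p (ball_subset_closedBall hp.1))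
  have hopen : IsOpen {y | minor (fun y => LinearIsometryEquiv.piLpCongrLeft 2 ℝ ℝ e (F y)) y ≠ 0} :=
    isOpen_ne_fun (continuous_minor (contDiff_comp_isometry _ hs)) continuous_const
  obtain ⟨r2, hr2, hB⟩ := Metric.isOpen_iff.1 hopen p hne
  have hr : 0 < min r1 r2 / 2 := by positivity
  have hlt : min r1 r2 / 2 < min r1 r2 := by linarith
  refine ⟨min r1 r2 / 2, hr, e, he, fun y hy => ?_, fun y hy w hw => ?_⟩
  · exact hB (closedBall_subset_ball (hlt.trans_le (min_le_right _ _)) hy)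
  · exact hA y (closedBall_subset_ball (hlt.trans_le (min_le_left _ _)) hy) w
      (hw.trans (hlt.trans_le (min_le_left _ _)))

/-- The curvature of the stretched disc. -/
theorem kap_str_le (hF : MorseDisc F) (himm : ∀ x ∈ closedBall (0 : EuclideanSpace ℝ (Fin 2)) 1,
      ∀ u, (∀ i, i ≠ 3 → fderiv ℝ F x u i = 0) → u = 0) (hfin : (births F).Finite) :
    ∃ C : ℝ, 0 ≤ C ∧ ∀ c : ℝ, 0 < c → kap (fun y => str c (F y)) ≤
      ((births F).ncard : ℝ≥0∞) * ENNReal.ofReal (Real.pi ^ 2 / 4) + ENNReal.ofReal (C / c) := by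
  classical
  have hs := hF.slice.smooth
  set D : Set (EuclideanSpace ℝ (Fin 2)) := closedBall 0 1 with hD
  have hDm : MeasurableSet D := measurableSet_closedBall
  set P : Finset (EuclideanSpace ℝ (Fin 2)) := hfin.toFinset with hP
  have hmemP : ∀ p, p ∈ P ↔ p ∈ births F := fun p => by rw [hP, Finite.mem_toFinset]
  have hcard : P.card = (births F).ncard := by
    rw [hP, ncard_eq_toFinset_card _ hfin]
  have hdata : ∀ p : EuclideanSpace ℝ (Fin 2), ∃ (r : ℝ) (e : Equiv.Perm (Fin 4)), p ∈ P →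
      0 < r ∧ e.symm 3 = 3 ∧
      (∀ y ∈ closedBall p r,
        minor (fun y => LinearIsometryEquiv.piLpCongrLeft 2 ℝ ℝ e (F y)) y ≠ 0) ∧
      ∀ y ∈ closedBall p r, ∀ w, ‖w - e3‖ < r → 0 < qf F 0 0 y w ∧ 0 < gq F y w := by
    intro p
    by_cases hp : p ∈ P
    · obtain ⟨r, hr, e, he⟩ := exists_data hF himm ((hmemP p).1 hp)
      exact ⟨r, e, fun _ => ⟨hr, he⟩⟩
    · exact ⟨0, 1, fun h => absurd h hp⟩
  choose r e hre using hdata
  -- the complement of the balls
  set K : Set (EuclideanSpace ℝ (Fin 2)) := D \ ⋃ p ∈ P, ball p (r p) with hK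
  have hKc : IsCompact K := (isCompact_closedBall _ _).diff
    (isOpen_biUnion fun p _ => isOpen_ball)
  have hKm : MeasurableSet K := hKc.measurableSet
  obtain ⟨ρ0, hρ0, hno⟩ := exists_no_bad hs hKc (fun x hx hbad => by
    have h1 : x ∈ P := (hmemP x).2 (bad_e3 hF hx.1 hbad)
    exact hx.2 (mem_biUnion h1 (mem_ball_self (hre x h1).1)))
  obtain ⟨ρ, hρ, hρρ0, hρr⟩ : ∃ ρ > 0, ρ ≤ ρ0 ∧ ∀ p ∈ P, ρ ≤ r p := by
    rcases P.eq_empty_or_nonempty with he | hne
    · exact ⟨ρ0, hρ0, le_rfl, fun p hp => by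
        rw [he] at hp; exact absurd hp (Finset.notMem_empty _)⟩
    · obtain ⟨q, hq, hmin⟩ := P.exists_min_image r hne
      exact ⟨min ρ0 (r q), lt_min hρ0 (hre q hq).1, min_le_left _ _, fun p hp =>
        (min_le_right _ _).trans (hmin p hp)⟩
  -- bounds
  obtain ⟨m0, hm0, hmin⟩ := exists_minor_bound hs himm
  obtain ⟨M0, hM0⟩ := (isCompact_closedBall (0 : EuclideanSpace ℝ (Fin 2)) 1).exists_bound_of_continuousOn
    (continuous_d2 hs 0 0).continuousOn
  obtain ⟨M1, hM1⟩ := (isCompact_closedBall (0 : EuclideanSpace ℝ (Fin 2)) 1).exists_bound_of_continuousOn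
    (continuous_d2 hs 1 1).continuousOn
  set M : ℝ := max (max M0 M1) 0 with hM
  have hMn : 0 ≤ M := le_max_right _ _
  have hM00 : ∀ x ∈ D, ‖d2 F 0 0 x‖ ≤ M := fun x hx =>
    (hM0 x hx).trans ((le_max_left _ _).trans (le_max_left _ _))
  have hM11 : ∀ x ∈ D, ‖d2 F 1 1 x‖ ≤ M := fun x hx =>
    (hM1 x hx).trans ((le_max_right _ _).trans (le_max_left _ _))
  set C0 : ℝ := (1 + 1 / ρ ^ 2) * M ^ 2 / m0 * (2 / ρ) with hC0
  have hC0n : 0 ≤ C0 := by positivity
  have hvolD : volume D ≠ ⊤ := (isCompact_closedBall _ _).measure_ne_top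
  refine ⟨C0 * (volume D).toReal, by positivity, fun c hc => ?_⟩
  set Fc : EuclideanSpace ℝ (Fin 2) → EuclideanSpace ℝ (Fin 4) := fun y => str c (F y) with hFc
  have hFcs : ContDiff ℝ ∞ Fc := contDiff_str c hs
  have hg : ∀ x ∈ D, 0 < gdet Fc x := fun x hx => gdet_str_pos hs (himm x hx)
  -- positive near vectors
  have hw : ∀ x v, v ∈ near (c * ρ) → PosAt Fc x v →
      ‖(c * v 3)⁻¹ • str c v - e3‖ < ρ ∧
      (∀ u, (inner ℝ ((c * v 3)⁻¹ • str c v) (fderiv ℝ F x u) : ℝ) = 0) ∧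
      (c * v 3)⁻¹ • str c v ∈ badSet F {x} := by
    intro x v hv hpos
    have hcv : 0 < (c * v 3)⁻¹ := inv_pos.2 (mul_pos hc hv.1)
    obtain ⟨h1, h2, h3⟩ := posAt_str c hs hpos
    have h4 : ∀ u, (inner ℝ ((c * v 3)⁻¹ • str c v) (fderiv ℝ F x u) : ℝ) = 0 := by
      intro u
      rw [real_inner_smul_left, h1 u, mul_zero]
    refine ⟨near_close hc hρ hv, h4, ?_⟩
    rw [mem_badSet_singleton]
    refine ⟨h4, fun u => ?_⟩
    rw [real_inner_smul_left]
    by_cases hu : u = 0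
    · rw [hu]
      simp
    · exact (mul_pos hcv (posDef_of_coeff hs h2 h3 u hu)).le
  -- the density of near vectors on the complement of the balls
  have hzero : ∀ x ∈ K, dens Fc (near (c * ρ)) x = 0 := by
    intro x hx
    have h1 : {v | PosAt Fc x v ∧ v ∈ near (c * ρ)} = ∅ := by
      ext v
      simp only [mem_ofPred_eq, mem_empty_iff_false, iff_false, not_and]
      intro hpos hv
      obtain ⟨h1, -, h3⟩ := hw x v hv hpos
      exact hno _ (h1.trans_le hρρ0) x hx h3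
    unfold dens
    rw [h1]
    simp
  -- one birth
  have hpiece : ∀ p ∈ P, ∫⁻ x in ball p (r p) ∩ D, dens Fc (near (c * ρ)) x ≤
      ENNReal.ofReal (Real.pi ^ 2 / 4) := by
    intro p hp
    obtain ⟨hr, he, hmi, hpd⟩ := hre p hp
    have hpm : ball p (r p) ∩ D ⊆ permPiece Fc (e p) := by
      intro x hx
      show minor (fun y => LinearIsometryEquiv.piLpCongrLeft 2 ℝ ℝ (e p) (str c (F y))) x ≠ 0
      rw [minor_perm_str c hs he]
      exact hmi x (ball_subset_closedBall hx.1)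
    have huniq : ∀ x ∈ ball p (r p) ∩ D, ∀ y ∈ ball p (r p) ∩ D, ∀ v ∈ near (c * ρ),
        PosAt Fc x v → PosAt Fc y v → x = y := by
      intro x hx y hy v hv hpx hpy
      obtain ⟨h1, h2, -⟩ := hw x v hv hpx
      obtain ⟨-, h3, -⟩ := hw y v hv hpy
      exact crit_unique hs (p := p) (r := r p)
        (fun y hy => hpd y hy _ (h1.trans_le (hρr p hp)))
        (ball_subset_closedBall hx.1) (ball_subset_closedBall hy.1) h2 h3
    rw [posSet_eq_perm hFcs (e p) (isOpen_ball.measurableSet.inter hDm)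
      (measurableSet_near (c * ρ)) hpm (fun x hx => hg x hx.2) huniq, ← volume_halfBall]
    refine measure_mono ?_
    rintro v ⟨x, -, ⟨-, hn, -⟩, hv, -⟩
    exact ⟨by simpa using hn, hv⟩
  have hcover : D ⊆ K ∪ ⋃ p ∈ P, (ball p (r p) ∩ D) := by
    intro x hx
    by_cases h : x ∈ ⋃ p ∈ P, ball p (r p)
    · right
      obtain ⟨p, hp, hxp⟩ := mem_iUnion₂.1 h
      exact mem_biUnion hp ⟨hxp, hx⟩
    · exact Or.inl ⟨hx, h⟩
  have hnear : ∫⁻ x in D, dens Fc (near (c * ρ)) x ≤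
      ((births F).ncard : ℝ≥0∞) * ENNReal.ofReal (Real.pi ^ 2 / 4) := by
    calc ∫⁻ x in D, dens Fc (near (c * ρ)) x
        ≤ ∫⁻ x in K ∪ ⋃ p ∈ P, (ball p (r p) ∩ D), dens Fc (near (c * ρ)) x :=
          lintegral_mono_set hcover
      _ ≤ (∫⁻ x in K, dens Fc (near (c * ρ)) x) +
          ∫⁻ x in ⋃ p ∈ P, (ball p (r p) ∩ D), dens Fc (near (c * ρ)) x :=
          lintegral_union_le _ _ _
      _ ≤ 0 + ∑ p ∈ P, ∫⁻ x in ball p (r p) ∩ D, dens Fc (near (c * ρ)) x := by
          refine add_le_add (le_of_eq ?_) (lintegral_biUnion_le P _ _)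
          rw [setLIntegral_congr_fun hKm hzero]
          simp
      _ ≤ ∑ _p ∈ P, ENNReal.ofReal (Real.pi ^ 2 / 4) := by
          rw [zero_add]
          exact Finset.sum_le_sum hpiece
      _ = _ := by
          rw [Finset.sum_const, hcard, nsmul_eq_mul]
  have hfarle : ∀ x ∈ D, dens Fc (far (c * ρ)) x ≤ ENNReal.ofReal (C0 / c) := by
    intro x hx
    obtain ⟨e', he', hme⟩ := hmin x hx
    refine (dens_far_le hs hc hρ hMn hm0 he' (hg x hx) hme (hM00 x hx) (hM11 x hx)).trans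
      (le_of_eq ?_)
    congr 1
    rw [hC0]
    field_simp
  have hsum : ∀ x ∈ D, dens Fc upper x ≤ dens Fc (near (c * ρ)) x + ENNReal.ofReal (C0 / c) := by
    intro x hx
    have h1 : {v | PosAt Fc x v ∧ v ∈ upper} = {v | PosAt Fc x v ∧ v ∈ near (c * ρ)} ∪
        {v | PosAt Fc x v ∧ v ∈ far (c * ρ)} := by
      rw [upper_eq (c * ρ)]
      ext v
      simp only [mem_union, mem_ofPred_eq]
      tauto
    calc dens Fc upper x ≤ dens Fc (near (c * ρ)) x + dens Fc (far (c * ρ)) x := by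
          unfold dens
          rw [h1]
          exact lintegral_union_le _ _ _
      _ ≤ _ := by
          gcongr
          exact hfarle x hx
  calc kap Fc ≤ ∫⁻ x in D, (dens Fc (near (c * ρ)) x + ENNReal.ofReal (C0 / c)) :=
        setLIntegral_mono' hDm hsum
    _ = (∫⁻ x in D, dens Fc (near (c * ρ)) x) + ∫⁻ _ in D, ENNReal.ofReal (C0 / c) :=
        lintegral_add_right _ measurable_const
    _ ≤ ((births F).ncard : ℝ≥0∞) * ENNReal.ofReal (Real.pi ^ 2 / 4) +
        ENNReal.ofReal (C0 * (volume D).toReal / c) := by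
        refine add_le_add hnear (le_of_eq ?_)
        rw [setLIntegral_const]
        conv_lhs => rw [← ENNReal.ofReal_toReal hvolD]
        rw [← ENNReal.ofReal_mul (by positivity)]
        congr 1
        ring

end Pool.Agent.Lib_MP_752436_fm
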